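import Pool.Agent.X209.DQ.Glob

/-!
# Isomorphic groups
-/

open scoped Classical BigOperators
open Pool.Agent.Helper884.IC Pool.Agent.Y63.AWC Pool.Agent.Y63.KR Pool.Agent.X209.EQ
open Pool.Agent.X209.PJ Pool.Agent.X209.CC Pool.Agent.X209.NB
open Pool.Agent.Y63.NV (IsClassFun IsBlock InZ centralValue redC IsInvBlock classValue conv)

set_option linter.unusedSectionVars false
set_option linter.unusedVariables false

noncomputable section

namespace Pool.Agent.X209.DQ

section

variable {p : ℕ} [hp : Fact p.Prime] {F : Type} [Field F] [CharP F p]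
  (red : integralClosure ℤ ℂ →+* F) {K H : Type} [Group K] [Group H] [Finite K] [Finite H]
  (e : K ≃* H)

/-- the block seen in an isomorphic group -/
def isoB (B : (H → F) → F) : (K → F) → F := fun f => B (fun x => f (e.symm x))

lemma conv_iso (f g : K → F) : (fun x => conv f g (e.symm x)) =
    conv (fun x => f (e.symm x)) (fun x => g (e.symm x)) := by
  funext x
  unfold conv
  rw [← finsum_comp_equiv e.symm.toEquiv]
  refine finsum_congr fun y => ?_
  change f (e.symm y) * g ((e.symm y)⁻¹ * e.symm x) = f (e.symm y) * g (e.symm (y⁻¹ * x))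
  rw [map_mul, map_inv]

lemma class_iso {f : K → F} (hf : IsClassFun f) : IsClassFun (fun x => f (e.symm x)) := by
  intro g x
  simp only [map_mul, map_inv]
  exact hf _ _

lemma isoB_block {B : (H → F) → F} (hB : IsBlock B) : IsBlock (isoB e B) := by
  refine ⟨?_, ?_, ?_, ?_⟩
  · intro f g hf hg
    exact hB.add _ _ (class_iso e hf) (class_iso e hg)
  · intro a f hf
    exact hB.smul a _ (class_iso e hf)
  · unfold isoB
    have h1 : (fun x => (Pi.single (1 : K) (1 : F) : K → F) (e.symm x)) =
        (Pi.single (1 : H) (1 : F) : H → F) := by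
      funext x
      rw [Pi.single_apply, Pi.single_apply]
      simp
    exact (congrArg B h1).trans hB.one
  · intro f g hf hg
    unfold isoB
    rw [conv_iso]
    exact hB.mul _ _ (class_iso e hf) (class_iso e hg)

lemma isoB_noDZ {B : (H → F) → F} (hD : NoDZ p red B) : NoDZ p red (isoB e B) := by
  intro χ hχ hχB hdef
  have h1 : IsIrrChar (fun x => χ (e.symm x)) := irr_comp e.symm hχ
  refine hD _ h1 (fun f hf => ?_) ?_
  · have h2 : IsClassFun (fun x => f (e x)) := by
      intro g x
      simp only [map_mul, map_inv]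
      exact hf _ _
    have h3 := Pool.Agent.Y624.NV.centralValue_comp red e.symm hχ h2
    simp only [e.apply_symm_apply] at h3
    rw [h3, hχB _ h2]
    unfold isoB
    simp only [e.apply_symm_apply]
  · obtain ⟨m, hm, hmd⟩ := hdef
    refine ⟨m, ?_, ?_⟩
    · simp only [map_one]
      exact hm
    · rw [hmd, Nat.card_congr e.toEquiv]

/-- the numbers for isomorphic subgroups -/
lemma kOrd_iso {B : (H → F) → F} (d : ℕ) (S : Subgroup K) :
    kOrd p red (isoB e B) d S = kOrd p red B d (S.map e.toMonoidHom) := by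
  let ε : S ≃* S.map e.toMonoidHom := S.equivMapOfInjective e.toMonoidHom e.injective
  have hε : ∀ x : S, ((ε x : S.map e.toMonoidHom) : H) = e x := fun x => rfl
  have hε' : ∀ x : S.map e.toMonoidHom, ((ε.symm x : S) : K) = e.symm x := by
    intro x
    obtain ⟨y, rfl⟩ := ε.surjective x
    rw [ε.symm_apply_apply, hε, e.symm_apply_apply]
  unfold kOrd
  refine Nat.card_congr
    { toFun := fun χ => ⟨fun x => χ.1 (ε.symm x), irr_comp ε.symm χ.2.1, ?_, ?_⟩
      invFun := fun χ => ⟨fun x => χ.1 (ε x), irr_comp ε χ.2.1, ?_, ?_⟩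
      left_inv := fun χ => Subtype.ext (funext fun x => congrArg χ.1 (ε.symm_apply_apply x))
      right_inv := fun χ => Subtype.ext (funext fun x => congrArg χ.1 (ε.apply_symm_apply x)) }
  · obtain ⟨m, hm, hmd⟩ := χ.2.2.1
    refine ⟨m, ?_, ?_⟩
    · simp only [map_one]
      exact hm
    · rw [hmd, Nat.card_congr ε.toEquiv]
  · intro f hf
    have h2 : IsClassFun (fun x : K => f (e x)) := by
      intro g x
      simp only [map_mul, map_inv]
      exact hf _ _
    have h3 := χ.2.2.2 _ h2
    have h4 : IsClassFun (fun x : S => f (e x)) := fun g x => h2 g x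
    have h5 := Pool.Agent.Y624.NV.centralValue_comp red ε.symm χ.2.1 h4
    rw [h3] at h5
    unfold isoB at h5
    simp only [e.apply_symm_apply, hε'] at h5
    exact h5
  · obtain ⟨m, hm, hmd⟩ := χ.2.2.1
    refine ⟨m, ?_, ?_⟩
    · simp only [map_one]
      exact hm
    · rw [hmd, Nat.card_congr ε.toEquiv]
  · intro f hf
    have h2 := class_iso e hf
    have h3 := χ.2.2.2 _ h2
    have h4 : IsClassFun (fun x : S.map e.toMonoidHom => f (e.symm x)) := fun g x => h2 g x
    have h5 := Pool.Agent.Y624.NV.centralValue_comp red ε χ.2.1 h4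
    rw [h3] at h5
    simp only [hε, e.symm_apply_apply] at h5
    exact h5

lemma conj_iso (g : K) (P : Subgroup K) :
    conjSub (e g) (P.map e.toMonoidHom) = (conjSub g P).map e.toMonoidHom :=
  conjSub_map' e.toMonoidHom g P

lemma iso_inj : Function.Injective (Subgroup.map e.toMonoidHom) :=
  Subgroup.map_injective e.injective

lemma stab_iso (σ : Set (Subgroup K)) : chainStabilizer (Subgroup.map e.toMonoidHom '' σ) =
    (chainStabilizer σ).map e.toMonoidHom := by
  ext y
  obtain ⟨x, rfl⟩ := e.surjective y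
  have h1 : e x ∈ (chainStabilizer σ).map e.toMonoidHom ↔ x ∈ chainStabilizer σ :=
    Subgroup.mem_map_iff_mem e.injective
  rw [h1, mem_chainStabilizer, mem_chainStabilizer]
  constructor
  · intro h P hP
    have h2 := h _ ⟨P, hP, rfl⟩
    rw [conj_iso] at h2
    exact iso_inj e h2
  · rintro h _ ⟨P, hP, rfl⟩
    rw [conj_iso, h P hP]

lemma upTo_iso (σ : Set (Subgroup K)) (P : Subgroup K) :
    upTo (Subgroup.map e.toMonoidHom '' σ) (P.map e.toMonoidHom) =
      Subgroup.map e.toMonoidHom '' upTo σ P := by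
  have hle : ∀ P Q : Subgroup K, P.map e.toMonoidHom ≤ Q.map e.toMonoidHom ↔ P ≤ Q :=
    fun P Q => Subgroup.map_le_map_iff_of_injective e.injective
  ext Q
  constructor
  · rintro ⟨⟨Q, hQ, rfl⟩, h⟩
    exact ⟨Q, ⟨hQ, (hle _ _).mp h⟩, rfl⟩
  · rintro ⟨Q, ⟨hQ, h⟩, rfl⟩
    exact ⟨⟨Q, hQ, rfl⟩, (hle _ _).mpr h⟩

lemma isRad_iso (σ : Set (Subgroup K)) :
    IsRad p (Subgroup.map e.toMonoidHom '' σ) ↔ IsRad p σ := by
  have hle : ∀ P Q : Subgroup K, P.map e.toMonoidHom ≤ Q.map e.toMonoidHom ↔ P ≤ Q :=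
    fun P Q => Subgroup.map_le_map_iff_of_injective e.injective
  have hsurj : ∀ N : Subgroup H, (N.comap e.toMonoidHom).map e.toMonoidHom = N :=
    fun N => Subgroup.map_comap_eq_self_of_surjective e.surjective N
  constructor
  · intro h P hP
    obtain ⟨h1, h2⟩ := h _ ⟨P, hP, rfl⟩
    rw [upTo_iso, stab_iso] at h1 h2
    refine ⟨(hle _ _).mp h1, fun N hN hpN hs => ?_⟩
    rw [← hle]
    refine h2 _ ((hle _ _).mpr hN) (hpN.map _) ?_
    rintro _ ⟨s, hs', rfl⟩
    have h3 := conj_iso e s N
    rw [hs s hs'] at h3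
    exact h3
  · rintro h _ ⟨P, hP, rfl⟩
    obtain ⟨h1, h2⟩ := h P hP
    rw [upTo_iso, stab_iso]
    refine ⟨(hle _ _).mpr h1, fun N hN hpN hs => ?_⟩
    rw [← hsurj N] at hN hs ⊢
    rw [hle] at hN ⊢
    refine h2 _ hN (hpN.comap_of_injective _ e.injective) ?_
    intro s hs'
    have h3 := hs (e s) ⟨s, hs', rfl⟩
    rw [conj_iso] at h3
    exact iso_inj e h3

/-- **Transport.** -/
theorem alt_iso {B : (H → F) → F} (d : ℕ) :
    altW p (IsRad p) (fun σ : Set (Subgroup K) =>
      (kOrd p red (isoB e B) d (chainStabilizer σ) : ℤ)) =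
    altW p (IsRad p) (fun σ : Set (Subgroup H) => (kOrd p red B d (chainStabilizer σ) : ℤ)) := by
  have hk : ∀ {J : Type} [Group J] [Finite J] (B : (J → F) → F) (g : J) (σ : Set (Subgroup J)),
      kOrd p red B d (chainStabilizer (conjSub g '' σ)) = kOrd p red B d (chainStabilizer σ) := by
    intro J _ _ B g σ
    rw [chainStabilizer_conj, kOrd_conj]
  have h1 := altC_quot (p := p) (A := (⊥ : Subgroup K)) (Z := (⊥ : Subgroup K)) e.toMonoidHom
    e.surjective bot_le ⟨le_rfl, IsPGroup.of_bot, rfl⟩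
    (by rw [(MonoidHom.ker_eq_bot_iff e.toMonoidHom).mpr e.injective])
    (fun σ => if IsRad p σ then (kOrd p red (isoB e B) d (chainStabilizer σ) : ℤ) else 0)
    (fun σ => if IsRad p σ then (kOrd p red B d (chainStabilizer σ) : ℤ) else 0)
    (fun g σ _ => by simp only [isRad_conj, hk])
    (fun g σ _ => by simp only [isRad_conj, hk])
    (fun σ _ => by simp only [isRad_iso e σ, kOrd_iso red e, stab_iso])
  rw [Subgroup.map_bot] at h1
  exact h1

end

end Pool.Agent.X209.DQ
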