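import Pool.Agent.X209.EQ.Grp

/-!
# The inversion for cyclic quotients
-/

open scoped Classical BigOperators
open Pool.Agent.X209.EQ

set_option linter.unusedSectionVars false
set_option linter.unusedVariables false

noncomputable section

namespace Pool.Agent.X209.DQ

variable {E : Type} [Group E] [Finite E] {G : Subgroup E} [hG : G.Normal]

/-- the number of the pairs which generate `V` modulo `G` -/
def JJ (G V : Subgroup E) : ℕ := Nat.card {q : E × E // Subgroup.closure {q.1, q.2} ⊔ G = V}

lemma card_sq {W : Subgroup E} (hGW : G ≤ W) [Fintype (Subgroup E)] :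
    Nat.card W ^ 2 = ∑ V : Subgroup E, if V ≤ W then JJ G V else 0 := by
  have : Fintype E := Fintype.ofFinite _
  have h1 : Nat.card W ^ 2 = (Finset.univ.filter fun q : E × E => q.1 ∈ W ∧ q.2 ∈ W).card := by
    have h2 : (Finset.univ.filter fun q : E × E => q.1 ∈ W ∧ q.2 ∈ W) =
        (Finset.univ.filter fun x : E => x ∈ W) ×ˢ (Finset.univ.filter fun x : E => x ∈ W) := by
      ext q
      simp [Finset.mem_product]
    have h3 : (Finset.univ.filter fun x : E => x ∈ W).card = Nat.card W := by
      rw [← Fintype.card_subtype, ← Nat.card_eq_fintype_card]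
    rw [h2, Finset.card_product, h3, sq]
  rw [h1, Finset.card_eq_sum_card_fiberwise
    (f := fun q : E × E => Subgroup.closure {q.1, q.2} ⊔ G) (t := Finset.univ)
    (fun _ _ => Finset.mem_coe.mpr (Finset.mem_univ _))]
  refine Finset.sum_congr rfl fun V _ => ?_
  have hle : ∀ q : E × E, Subgroup.closure {q.1, q.2} ⊔ G ≤ W ↔ q.1 ∈ W ∧ q.2 ∈ W := by
    intro q
    rw [sup_le_iff, Subgroup.closure_le]
    constructor
    · rintro ⟨h, _⟩
      exact ⟨h (by simp), h (by simp)⟩
    · rintro ⟨h2, h3⟩
      refine ⟨?_, hGW⟩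
      rintro z (rfl | hz)
      · exact h2
      · rw [Set.mem_singleton_iff.mp hz]
        exact h3
  unfold JJ
  split_ifs with hV
  · rw [← Fintype.card_coe, ← Nat.card_eq_fintype_card]
    refine Nat.card_congr (Equiv.subtypeEquivRight fun q => ?_)
    rw [Finset.mem_filter, Finset.mem_filter, ← hle]
    constructor
    · exact fun h => h.2
    · intro h
      exact ⟨⟨Finset.mem_univ _, by rw [h]; exact hV⟩, h⟩
  · rw [Finset.card_eq_zero, Finset.filter_eq_empty_iff]
    intro q hq h
    rw [Finset.mem_filter, ← hle] at hq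
    exact hV (h ▸ hq.2)

lemma JJ_pos (hE : ∃ e₀ : E, G ⊔ Subgroup.zpowers e₀ = ⊤) {X : Subgroup E} (hX : G ≤ X) :
    0 < JJ G X := by
  obtain ⟨e₀, he₀⟩ := hE
  have hc : IsCyclic (E ⧸ G) := by
    refine ⟨QuotientGroup.mk e₀, fun y => ?_⟩
    obtain ⟨x, rfl⟩ := QuotientGroup.mk_surjective y
    obtain ⟨k, hk⟩ := sup_gen (G := G) (e := e₀) (x := x) (by rw [he₀]; trivial)
    refine ⟨k, ?_⟩
    change (QuotientGroup.mk e₀ : E ⧸ G) ^ (k : ℤ) = QuotientGroup.mk x
    rw [zpow_natCast]
    exact (QuotientGroup.eq.mpr hk :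
      (QuotientGroup.mk x : E ⧸ G) = QuotientGroup.mk (e₀ ^ k)).symm
  have hU : IsCyclic (X.map (QuotientGroup.mk' G)) := inferInstance
  obtain ⟨⟨y, hy⟩, hgen⟩ := hU.exists_generator
  obtain ⟨u, huX, rfl⟩ := hy
  have hne : Nonempty {q : E × E // Subgroup.closure {q.1, q.2} ⊔ G = X} := by
    refine ⟨⟨(u, u), ?_⟩⟩
    apply le_antisymm
    · refine sup_le ?_ hX
      rw [Subgroup.closure_le]
      rintro z (rfl | hz)
      · exact huX
      · rw [Set.mem_singleton_iff.mp hz]
        exact huX
    · intro x hx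
      have h1 := hgen ⟨_, ⟨x, hx, rfl⟩⟩
      rw [← mem_powers_iff_mem_zpowers] at h1
      obtain ⟨k, hk⟩ := h1
      have h2 := congrArg Subtype.val hk
      have h3 : x⁻¹ * u ^ k ∈ G := QuotientGroup.eq.mp
        (h2.symm : (QuotientGroup.mk x : E ⧸ G) = QuotientGroup.mk (u ^ k))
      have h4 : u ∈ Subgroup.closure ({(u, u).1, (u, u).2} : Set E) :=
        Subgroup.subset_closure (by simp)
      have h5 : x = u ^ k * (x⁻¹ * u ^ k)⁻¹ := by group
      rw [h5]
      exact Subgroup.mul_mem _ ((le_sup_left : _ ≤ Subgroup.closure _ ⊔ G)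
        (Subgroup.pow_mem _ h4 k)) ((le_sup_right : G ≤ _) (G.inv_mem h3))
  exact Nat.card_pos

/-- **The inversion.** -/
theorem inversion (hE : ∃ e₀ : E, G ⊔ Subgroup.zpowers e₀ = ⊤) (V : Subgroup E)
    {I : Subgroup E → ℤ} (h0 : ∀ U, ¬ (G ≤ U ∧ U ≤ V) → I U = 0) :
    (∀ X : Subgroup E, G ≤ X → X ≤ V → ∑ᶠ U : Subgroup E,
      (Nat.card (U ⊓ X : Subgroup E) : ℤ) ^ 2 * I U = 0) ↔ ∀ U, I U = 0 := by
  have : Fintype (Subgroup E) := Fintype.ofFinite _
  constructor
  swap
  · intro h X _ _
    simp [h]
  intro h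
  -- the upper sums
  have hform : ∀ X : Subgroup E, G ≤ X → ∑ᶠ U : Subgroup E,
      (Nat.card (U ⊓ X : Subgroup E) : ℤ) ^ 2 * I U =
      ∑ V : Subgroup E, if V ≤ X then (JJ G V : ℤ) * ∑ U : Subgroup E, (if V ≤ U then I U else 0)
        else 0 := by
    intro X hX
    rw [finsum_eq_sum_of_fintype]
    have h1 : ∀ U : Subgroup E, (Nat.card (U ⊓ X : Subgroup E) : ℤ) ^ 2 * I U =
        ∑ V : Subgroup E, if V ≤ X then (JJ G V : ℤ) * (if V ≤ U then I U else 0) else 0 := by
      intro U
      by_cases hU : G ≤ U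
      · have h2 := card_sq (G := G) (le_inf hU hX)
        have h3 : (Nat.card (U ⊓ X : Subgroup E) : ℤ) ^ 2 =
            ∑ V : Subgroup E, if V ≤ U ⊓ X then (JJ G V : ℤ) else 0 := by
          have := congrArg (fun n : ℕ => (n : ℤ)) h2
          simp only [Nat.cast_pow, Nat.cast_sum, Nat.cast_ite, Nat.cast_zero] at this
          exact this
        rw [h3, Finset.sum_mul]
        refine Finset.sum_congr rfl fun V _ => ?_
        by_cases hV : V ≤ X <;> by_cases hV2 : V ≤ U <;> simp [hV, hV2]
      · rw [h0 U (fun h => hU h.1)]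
        simp
    rw [Finset.sum_congr rfl fun U _ => h1 U, Finset.sum_comm]
    refine Finset.sum_congr rfl fun V _ => ?_
    by_cases hV : V ≤ X
    · simp only [if_pos hV]
      rw [Finset.mul_sum]
    · simp only [if_neg hV]
      exact Finset.sum_const_zero
  have hJ0 : ∀ V : Subgroup E, ¬ G ≤ V → JJ G V = 0 := by
    intro V hV
    unfold JJ
    have : IsEmpty {q : E × E // Subgroup.closure {q.1, q.2} ⊔ G = V} :=
      ⟨fun q => hV (q.2 ▸ le_sup_right)⟩
    exact Nat.card_of_isEmpty
  have hup : ∀ n : ℕ, ∀ X : Subgroup E, G ≤ X → X ≤ V → Nat.card X = n →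
      ∑ U : Subgroup E, (if X ≤ U then I U else 0) = 0 := by
    intro n
    induction n using Nat.strong_induction_on with
    | _ n ih =>
      intro X hX hXV hn
      have h1 := h X hX hXV
      rw [hform X hX, Finset.sum_eq_single X] at h1
      · rw [if_pos le_rfl] at h1
        rcases mul_eq_zero.mp h1 with h2 | h2
        · have h3 := JJ_pos hE hX
          have h4 : JJ G X = 0 := by exact_mod_cast h2
          omega
        · exact h2
      · intro W _ hV
        by_cases hVX : W ≤ X
        · rw [if_pos hVX]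
          by_cases hGV : G ≤ W
          · have hlt : Nat.card W < n := by
              rw [← hn]
              rcases lt_or_eq_of_le (Nat.le_of_dvd Nat.card_pos (Subgroup.card_dvd_of_le hVX))
                with h2 | h2
              · exact h2
              · exact absurd (Subgroup.eq_of_le_of_card_ge hVX h2.ge) hV
            rw [ih _ hlt W hGV (hVX.trans hXV) rfl, mul_zero]
          · rw [hJ0 W hGV]
            simp
        · rw [if_neg hVX]
      · intro h2
        exact absurd (Finset.mem_univ _) h2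
  have hdown : ∀ n : ℕ, ∀ U : Subgroup E, Nat.card E - Nat.card U = n → I U = 0 := by
    intro n
    induction n using Nat.strong_induction_on with
    | _ n ih =>
      intro U hn
      by_cases hU : G ≤ U ∧ U ≤ V
      · have h1 := hup _ U hU.1 hU.2 rfl
        rw [Finset.sum_eq_single U] at h1
        · rwa [if_pos le_rfl] at h1
        · intro W _ hV
          by_cases hUV : U ≤ W
          · rw [if_pos hUV]
            have h2 : Nat.card U < Nat.card W := by
              rcases lt_or_eq_of_le (Nat.le_of_dvd Nat.card_pos (Subgroup.card_dvd_of_le hUV))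
                with h2 | h2
              · exact h2
              · exact absurd (Subgroup.eq_of_le_of_card_ge hUV h2.ge).symm hV
            have h3 : Nat.card W ≤ Nat.card E := Nat.le_of_dvd Nat.card_pos
              (Subgroup.card_subgroup_dvd_card W)
            exact ih _ (by omega) W rfl
          · rw [if_neg hUV]
        · intro h2
          exact absurd (Finset.mem_univ _) h2
      · exact h0 U hU
  exact fun U => hdown _ U rfl

end Pool.Agent.X209.DQ
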