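import Pool.Agent.X209.DQ.Chn

/-!
# Radical chains
-/

open scoped Classical BigOperators Pointwise
open Pool.Agent.Helper884.IC Pool.Agent.Y63.AWC Pool.Agent.Y63.KR Pool.Agent.X209.EQ
open Pool.Agent.X209.PJ Pool.Agent.X209.CC Pool.Agent.X209.NB

set_option linter.unusedSectionVars false
set_option linter.unusedVariables false

noncomputable section

namespace Pool.Agent.X209.DQ

/-- the part of the chain up to `P` -/
def upTo {H : Type} [Group H] (σ : Set (Subgroup H)) (P : Subgroup H) : Set (Subgroup H) :=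
  {Q | Q ∈ σ ∧ Q ≤ P}

/-- The chain `σ` of nontrivial `p`-subgroups of `H` (a chain starting with `1 = O_p(H)`) is
radical: each member `P` is the largest normal `p`-subgroup of the stabiliser of the part of the
chain up to `P`. -/
def IsRad (p : ℕ) {H : Type} [Group H] (σ : Set (Subgroup H)) : Prop :=
  ∀ P ∈ σ, P ≤ chainStabilizer (upTo σ P) ∧ ∀ N : Subgroup H, N ≤ chainStabilizer (upTo σ P) →
    IsPGroup p N → (∀ s ∈ chainStabilizer (upTo σ P), conjSub s N = N) → N ≤ P

section conj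

variable {p : ℕ} {H : Type} [Group H]

lemma conjSub_mono {g : H} {P Q : Subgroup H} (h : P ≤ Q) : conjSub g P ≤ conjSub g Q :=
  Subgroup.map_mono h

lemma conjSub_back (g : H) (P : Subgroup H) : conjSub g⁻¹ (conjSub g P) = P := by
  rw [← conjSub_mul, inv_mul_cancel, conjSub_one]

lemma conjSub_forth (g : H) (P : Subgroup H) : conjSub g (conjSub g⁻¹ P) = P := by
  rw [← conjSub_mul, mul_inv_cancel, conjSub_one]

lemma upTo_conj (g : H) (σ : Set (Subgroup H)) (P : Subgroup H) :
    upTo (conjSub g '' σ) (conjSub g P) = conjSub g '' upTo σ P := by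
  ext Q
  constructor
  · rintro ⟨⟨Q, hQ, rfl⟩, hle⟩
    refine ⟨Q, ⟨hQ, ?_⟩, rfl⟩
    have := conjSub_mono (g := g⁻¹) hle
    rwa [conjSub_back, conjSub_back] at this
  · rintro ⟨Q, ⟨hQ, hle⟩, rfl⟩
    exact ⟨⟨Q, hQ, rfl⟩, conjSub_mono hle⟩

lemma isRad_conj_of (g : H) {σ : Set (Subgroup H)} (h : IsRad p σ) :
    IsRad p (conjSub g '' σ) := by
  rintro _ ⟨P, hP, rfl⟩
  obtain ⟨h1, h2⟩ := h P hP
  rw [upTo_conj, chainStabilizer_conj]
  refine ⟨conjSub_mono h1, fun N hN hpN hs => ?_⟩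
  have h3 : conjSub g⁻¹ N ≤ P := by
    apply h2
    · have := conjSub_mono (g := g⁻¹) hN
      rwa [conjSub_back] at this
    · exact hpN.map _
    · intro s hs'
      have h4 := hs (g * s * g⁻¹) (conj_mem_conjSub hs')
      have h5 : conjSub s (conjSub g⁻¹ N) = conjSub g⁻¹ (conjSub (g * s * g⁻¹) N) := by
        rw [← conjSub_mul, ← conjSub_mul]
        congr 1
        group
      rw [h5, h4]
  have := conjSub_mono (g := g) h3
  rwa [conjSub_forth] at this

lemma isRad_conj [Finite H] (g : H) (σ : Set (Subgroup H)) : IsRad p (conjSub g '' σ) ↔ IsRad p σ := by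
  refine ⟨fun h => ?_, isRad_conj_of g⟩
  have := isRad_conj_of g⁻¹ h
  rwa [conj_back] at this

end conj

section tr

variable {p : ℕ} [hp : Fact p.Prime] {E : Type} [Group E] [Finite E] {G : Subgroup E}
  [hG : G.Normal] (hidx : ¬ p ∣ G.index) {X : Subgroup E} (hX : G ≤ X)

lemma upTo_tr (σ : Set (Subgroup G)) (P : Subgroup G) :
    upTo (tr hX σ) (P.map (Subgroup.inclusion hX)) = tr hX (upTo σ P) := by
  have hle : ∀ P Q : Subgroup G, P.map (Subgroup.inclusion hX) ≤ Q.map (Subgroup.inclusion hX) ↔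
      P ≤ Q := fun P Q =>
    Subgroup.map_le_map_iff_of_injective (Subgroup.inclusion_injective hX)
  ext Q
  constructor
  · rintro ⟨⟨Q, hQ, rfl⟩, h⟩
    exact ⟨Q, ⟨hQ, (hle _ _).mp h⟩, rfl⟩
  · rintro ⟨Q, ⟨hQ, h⟩, rfl⟩
    exact ⟨⟨Q, hQ, rfl⟩, (hle _ _).mpr h⟩

lemma mem_stab_iff (σ : Set (Subgroup G)) (x : G) :
    Subgroup.inclusion hX x ∈ chainStabilizer (tr hX σ) ↔ x ∈ chainStabilizer σ := by
  rw [mem_tr_stab, mem_stab_G]
  exact Iff.rfl

/-- the intersection of the Sylow subgroups of `S` -/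
lemma core_exists (S : Subgroup X) : ∃ M : Subgroup X, M ≤ S ∧ IsPGroup p M ∧
    (∀ s ∈ S, conjSub s M = M) ∧ ∀ N : Subgroup X, N ≤ S → IsPGroup p N →
      (∀ r ∈ S, (∃ a : ℕ, r ^ p ^ a = 1) → conjSub r N = N) → N ≤ M := by
  let M0 : Subgroup S := ⨅ R : Sylow p S, (R : Subgroup S)
  have hM0 : ∀ m : S, m ∈ M0 ↔ ∀ R : Sylow p S, m ∈ (R : Subgroup S) := by
    intro m
    simp only [M0, Subgroup.mem_iInf]
  have hconj : ∀ s m : S, m ∈ M0 → s * m * s⁻¹ ∈ M0 := by
    intro s m hm
    rw [hM0] at hm ⊢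
    intro R
    have h1 := hm (s⁻¹ • R)
    rw [Sylow.smul_def, Sylow.pointwise_smul_def, Subgroup.mem_pointwise_smul_iff_inv_smul_mem] at h1
    have h2 : (MulAut.conj s⁻¹)⁻¹ • m = s * m * s⁻¹ := by
      rw [← map_inv, inv_inv, MulAut.smul_def, MulAut.conj_apply]
    rwa [h2] at h1
  refine ⟨M0.map S.subtype, Subgroup.map_subtype_le _, ?_, ?_, ?_⟩
  · obtain ⟨R⟩ : Nonempty (Sylow p S) := inferInstance
    exact (R.isPGroup'.to_le (iInf_le _ R)).map _
  · intro s hs
    rw [conjSub_eq_iff, Subgroup.mem_normalizer_iff]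
    have hfor : ∀ (t : X), t ∈ S → ∀ y, y ∈ M0.map S.subtype → t * y * t⁻¹ ∈ M0.map S.subtype := by
      rintro t ht _ ⟨m, hm, rfl⟩
      exact ⟨⟨t, ht⟩ * m * (⟨t, ht⟩ : S)⁻¹, hconj _ _ hm, rfl⟩
    intro y
    constructor
    · exact hfor s hs y
    · intro h
      have := hfor s⁻¹ (S.inv_mem hs) _ h
      have e : s⁻¹ * (s * y * s⁻¹) * s⁻¹⁻¹ = y := by group
      rwa [e] at this
  · intro N hN hpN hr
    have h1 : N.subgroupOf S ≤ M0 := by
      intro m hm
      rw [hM0]
      intro R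
      have hpN' : IsPGroup p (N.subgroupOf S) :=
        hpN.comap_of_injective S.subtype S.subtype_injective
      have hnor : (R : Subgroup S) ≤ Subgroup.normalizer ((N.subgroupOf S : Subgroup S) : Set S) := by
        intro r hrR
        obtain ⟨a, ha⟩ := R.isPGroup' ⟨r, hrR⟩
        have ha' : (r : X) ^ p ^ a = 1 := congrArg (fun u : (R : Subgroup S) => ((u : S) : X)) ha
        have h2 := hr r r.2 ⟨a, ha'⟩
        rw [conjSub_eq_iff, Subgroup.mem_normalizer_iff] at h2
        rw [Subgroup.mem_normalizer_iff]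
        intro y
        rw [Subgroup.mem_subgroupOf, Subgroup.mem_subgroupOf]
        exact h2 y
      have h3 : IsPGroup p ((R : Subgroup S) ⊔ N.subgroupOf S : Subgroup S) :=
        IsPGroup.to_sup_of_normal_right' R.isPGroup' hpN' hnor
      have h4 := R.is_maximal' h3 le_sup_left
      have h5 : N.subgroupOf S ≤ (R : Subgroup S) := by
        rw [← h4]
        exact le_sup_right
      exact h5 hm
    intro n hn
    exact ⟨⟨n, hN hn⟩, h1 (Subgroup.mem_subgroupOf.mpr hn), rfl⟩

include hidx in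
/-- radical chains of `X` and of `G` -/
theorem rad_iff {σ : Set (Subgroup G)} (hσ : IsChainAbove p (⊥ : Subgroup G) σ) :
    IsRad p (tr hX σ) ↔ IsRad p σ := by
  have hle : ∀ P Q : Subgroup G, P.map (Subgroup.inclusion hX) ≤ Q.map (Subgroup.inclusion hX) ↔
      P ≤ Q := fun P Q =>
    Subgroup.map_le_map_iff_of_injective (Subgroup.inclusion_injective hX)
  have hstab : ∀ (P : Subgroup G) (K : Subgroup G),
      K.map (Subgroup.inclusion hX) ≤ chainStabilizer (tr hX (upTo σ P)) ↔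
        K ≤ chainStabilizer (upTo σ P) := by
    intro P K
    rw [Subgroup.map_le_iff_le_comap]
    constructor
    · intro h x hx
      exact (mem_stab_iff hX _ x).mp (h hx)
    · intro h x hx
      exact (mem_stab_iff hX _ x).mpr (h hx)
  constructor
  · intro h P hP
    obtain ⟨h1, h2⟩ := h _ ⟨P, hP, rfl⟩
    rw [upTo_tr] at h1 h2
    refine ⟨(hstab P P).mp h1, fun N hN hpN hs => ?_⟩
    obtain ⟨M, hM1, hM2, hM3, hM4⟩ := core_exists (p := p) (chainStabilizer (tr hX (upTo σ P)))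
    have h3 := h2 M hM1 hM2 hM3
    have h4 : N.map (Subgroup.inclusion hX) ≤ M := by
      apply hM4 _ ((hstab P N).mpr hN) (hpN.map _)
      rintro r hr ⟨a, ha⟩
      have hrG : (r : E) ∈ G := by
        apply pelt_mem hidx (a := a)
        have := congrArg Subtype.val ha
        exact this
      have hr' : (⟨r, hrG⟩ : G) ∈ chainStabilizer (upTo σ P) := (mem_stab_iff hX _ _).mp hr
      have h5 := hs _ hr'
      have h6 := conjSub_map' (Subgroup.inclusion hX) ⟨r, hrG⟩ N
      rw [h5] at h6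
      exact h6
    exact (hle _ _).mp (h4.trans h3)
  · rintro h _ ⟨P, hP, rfl⟩
    obtain ⟨h1, h2⟩ := h P hP
    rw [upTo_tr]
    refine ⟨(hstab P P).mpr h1, fun N hN hpN hs => ?_⟩
    have hNr := pgroup_le hidx hX hpN
    have h3 : (N.comap (Subgroup.inclusion hX)).map (Subgroup.inclusion hX) = N :=
      Subgroup.map_comap_eq_self hNr
    rw [← h3] at hN hs ⊢
    rw [hle]
    apply h2
    · exact (hstab P _).mp hN
    · exact hpN.comap_of_injective _ (Subgroup.inclusion_injective hX)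
    · intro s hs'
      have h5 := hs _ ((mem_stab_iff hX _ s).mpr hs')
      rw [conjSub_map'] at h5
      exact map_inj hX h5

end tr

end Pool.Agent.X209.DQ
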