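import Pool.Agent.X209.DQ.Main
import Pool.Agent.X209.DQ.Inv
import Pool.Agent.X209.DQ.Rad

/-!
# The local theorem
-/

open scoped Classical BigOperators
open Pool.Agent.Helper884.IC Pool.Agent.Y63.AWC Pool.Agent.Y63.KR Pool.Agent.X209.EQ
open Pool.Agent.X209.PJ Pool.Agent.X209.CC Pool.Agent.X209.NB
open Pool.Agent.Y63.NV (IsClassFun IsBlock InZ centralValue redC IsInvBlock)

set_option linter.unusedSectionVars false
set_option linter.unusedVariables false

noncomputable section

namespace Pool.Agent.X209.DQ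

section

variable {p : ℕ} [hp : Fact p.Prime] {F : Type} [Field F] [CharP F p]
  (red : integralClosure ℤ ℂ →+* F) {E : Type} [Group E] [Finite E] {G : Subgroup E}
  [hG : G.Normal] {B : (G → F) → F} {d : ℕ}

lemma le_StB : G ≤ StB G B := by
  intro e he
  rw [mem_StB]
  intro f hf
  refine congrArg B (funext fun x => ?_)
  have h1 : MulAut.conjNormal e⁻¹ x = (⟨e⁻¹, G.inv_mem he⟩ : G) * x * (⟨e⁻¹, G.inv_mem he⟩ : G)⁻¹ := by
    apply Subtype.ext
    rw [MulAut.conjNormal_apply]
    rfl
  rw [h1, hf]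

/-- the conjugation by an element which stabilises the chain -/
def cjS {σ : Set (Subgroup G)} {ψ : chainStabilizer σ → ℂ} {b : E} (hb : b ∈ FixSub σ ψ) :
    chainStabilizer σ ≃* chainStabilizer σ where
  toFun x := ⟨MulAut.conjNormal b x.1,
    mem_stab_aut ((fixes_iff σ ψ b).mp (mem_FixSub.mp hb)).1 x.2⟩
  invFun x := ⟨MulAut.conjNormal b⁻¹ x.1,
    mem_stab_aut ((fixes_iff σ ψ b⁻¹).mp (mem_FixSub.mp ((FixSub σ ψ).inv_mem hb))).1 x.2⟩
  left_inv x := by
    apply Subtype.ext
    apply Subtype.ext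
    simp only [MulAut.conjNormal_apply]
    group
  right_inv x := by
    apply Subtype.ext
    apply Subtype.ext
    simp only [MulAut.conjNormal_apply]
    group
  map_mul' x y := by
    apply Subtype.ext
    simp only [Subgroup.coe_mul, map_mul]

lemma fix_le {σ : Set (Subgroup G)} {ψ : chainStabilizer σ → ℂ} (h : IsIrrChar ψ)
    (hind : Induces red B ψ) : FixSub σ ψ ≤ StB G B := by
  intro b hb
  rw [mem_StB]
  intro f hf
  have h1 : IsClassFun (fun x : G => f (MulAut.conjNormal b⁻¹ x)) := by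
    intro g x
    simp only [map_mul, map_inv]
    exact hf _ _
  rw [← hind _ h1, ← hind _ hf]
  have h2 : IsClassFun (fun x : chainStabilizer σ => f (MulAut.conjNormal b⁻¹ (x : G))) :=
    fun g x => h1 g x
  have h3 := Pool.Agent.Y624.NV.centralValue_comp red (cjS hb) h h2
  rw [← h3]
  have e1 : (fun x => ψ (cjS hb x)) = ψ := by
    funext x
    apply (mem_FixSub.mp hb).2 x
    change ((MulAut.conjNormal b (x : G) : G) : E) = _
    rw [MulAut.conjNormal_apply]
  have e2 : (fun x : chainStabilizer σ => f (MulAut.conjNormal b⁻¹ ((cjS hb x : chainStabilizer σ) : G)))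
      = fun x : chainStabilizer σ => f x := by
    funext x
    congr 1
    apply Subtype.ext
    change ((MulAut.conjNormal b⁻¹ (MulAut.conjNormal b (x : G)) : G) : E) = _
    rw [MulAut.conjNormal_apply, MulAut.conjNormal_apply]
    group
  rw [e1, e2]

lemma kI_zero {U : Subgroup E} (hU : ¬ (G ≤ U ∧ U ≤ StB G B)) (σ : Set (Subgroup G)) :
    kI red p B d U σ = 0 := by
  unfold kI
  have : IsEmpty {ψ : chainStabilizer σ → ℂ // IsIrrChar ψ ∧ HasDefect p d ψ ∧ Induces red B ψ ∧
      StabIs G U σ ψ} := by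
    constructor
    rintro ⟨ψ, h1, h2, h3, h4⟩
    rw [stabIs_iff'] at h4
    apply hU
    rw [h4]
    exact ⟨le_sup_right, sup_le (fix_le red h1 h3) le_StB⟩
  exact Nat.card_of_isEmpty

lemma altW_zero {H : Type} [Group H] {W : Set (Subgroup H) → Prop} {f : Set (Subgroup H) → ℕ}
    (h : ∀ σ, f σ = 0) : altW p W (fun σ => (f σ : ℤ)) = 0 := by
  unfold altW altC
  simp [h]

/-- **The local theorem.** -/
theorem local_iff (hidx : ¬ p ∣ G.index) (hE : ∃ e₀ : E, G ⊔ Subgroup.zpowers e₀ = ⊤)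
    (hB : IsBlock B) : (∀ X : Subgroup E, G ≤ X → X ≤ StB G B →
      altW p (IsRad p) (fun τ : Set (Subgroup X) => (kX red p B d τ : ℤ)) = 0) ↔
    ∀ U : Subgroup E, altW p (IsRad p) (fun σ => (kI red p B d U σ : ℤ)) = 0 := by
  rw [← inversion hE (StB G B) (fun U hU => altW_zero (kI_zero red hU))]
  refine forall_congr' fun X => forall_congr' fun hX => forall_congr' fun hXV => ?_
  rw [← formula red hidx hX hE hB hXV (IsRad p) (IsRad p) (fun g σ _ => isRad_conj g σ)
    (fun g σ _ => isRad_conj g σ) (fun σ hσ => rad_iff hidx hX hσ)]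
  have h1 : (Nat.card G : ℤ) ≠ 0 := by exact_mod_cast Nat.card_pos.ne'
  have h2 : (Nat.card X : ℤ) ≠ 0 := by exact_mod_cast Nat.card_pos.ne'
  rw [mul_eq_zero, mul_eq_zero]
  tauto

end

end Pool.Agent.X209.DQ
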