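import Pool.Agent.X209.EQ.Cliff
import Pool.Agent.X209.PJ.Ind
import Pool.Agent.Y405.NV.Rinj
import Pool.Agent.Y624.NV.Trn

/-!
# Blocks of a normal subgroup and central characters of characters over it
-/

open scoped Classical BigOperators
open Pool.Agent.Helper884.IC Pool.Agent.Y63.AWC Pool.Agent.X209.DI
open Pool.Agent.Y63.NV (IsClassFun IsBlock InZ centralValue redC IsInvBlock)
open Pool.Agent.Y930.NV (om ind R Cf)
open Pool.Agent.Y63.KR (dg dg_spec)

set_option linter.unusedSectionVars false
set_option linter.unusedVariables false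

noncomputable section

namespace Pool.Agent.X209.DQ

section uniq

open Pool.Agent.Y405.NV

variable {F : Type} [Field F] {Γ : Type} [Group Γ] [Finite Γ] (G : Subgroup Γ) [hG : G.Normal]

/-- the stabiliser of a block -/
def StB (B : (G → F) → F) : Subgroup Γ where
  carrier := {e | ∀ f : G → F, IsClassFun f → B (fun x => f (MulAut.conjNormal e⁻¹ x)) = B f}
  one_mem' := by
    intro f _
    congr 1
    funext x
    simp
  mul_mem' := by
    intro a b ha hb f hf
    have h1 : IsClassFun (fun x : G => f (MulAut.conjNormal b⁻¹ x)) := by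
      intro g x
      simp only [map_mul, map_inv]
      exact hf _ _
    rw [← hb f hf, ← ha _ h1]
    refine congrArg B (funext fun x => ?_)
    rw [mul_inv_rev, map_mul]
    rfl
  inv_mem' := by
    intro a ha f hf
    have h1 : IsClassFun (fun x : G => f (MulAut.conjNormal a⁻¹⁻¹ x)) := by
      intro g x
      simp only [map_mul, map_inv]
      exact hf _ _
    rw [← ha _ h1]
    refine congrArg B (funext fun x => ?_)
    simp

lemma mem_StB {B : (G → F) → F} {e : Γ} : e ∈ StB G B ↔
    ∀ f : G → F, IsClassFun f → B (fun x => f (MulAut.conjNormal e⁻¹ x)) = B f := Iff.rfl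

lemma toRH_sg' {B : (G → F) → F} (hB : IsBlock B) {g : Γ} (hg : g ∈ StB G B)
    (z : Subring.center (MonoidAlgebra F G)) : toRH hB (sg G g z) = toRH hB z := by
  rw [toRH_apply, toRH_apply]
  rw [← hg _ ((class_iff z.1).mp z.2)]
  refine congrArg B (funext fun x => ?_)
  rw [coeff_sg, map_inv]
  rfl

/-- **An invariant block is determined by its values at the invariant elements.** -/
theorem uniq_inv {B B' : (G → F) → F} (hB : IsBlock B) (hB' : IsBlock B') {X : Subgroup Γ}
    (hI : X ≤ StB G B)
    (h : ∀ z : Γ → F, (∀ g ∈ X, ∀ x, z (g * x * g⁻¹) = z x) → (∀ x, x ∉ G → z x = 0) →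
      B' (fun x : G => z x) = B (fun x : G => z x)) {f : G → F}
    (hf : IsClassFun f) : B' f = B f := by
  let _ := Fintype.ofFinite X
  let w : Subring.center (MonoidAlgebra F G) := ∏ g : X, (sg G (g : Γ) (ofC f hf) - ofS (B' f))
  have hw : ∀ k ∈ X, sg G k w = w := by
    intro k hk
    change sg G k (∏ g : X, (sg G (g : Γ) (ofC f hf) - ofS (B' f))) = _
    rw [map_prod]
    simp only [map_sub, sg_sg, sg_ofS]
    exact Equiv.prod_comp (Equiv.mulLeft (⟨k, hk⟩ : X))
      (fun g : X => (sg G (g : Γ) (ofC f hf) - ofS (B' f) : Subring.center (MonoidAlgebra F G)))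
  let zz : Γ → F := fun x => if hx : x ∈ G then w.1.coeff ⟨x, hx⟩ else 0
  have hzz : ∀ x : G, zz x = w.1.coeff x := fun x => dif_pos x.2
  have hz0 : ∀ x, x ∉ G → zz x = 0 := fun x hx => dif_neg hx
  have hz1 : ∀ g ∈ X, ∀ x, zz (g * x * g⁻¹) = zz x := by
    intro g hg x
    by_cases hx : x ∈ G
    · have hx' : g * x * g⁻¹ ∈ G := hG.conj_mem x hx g
      have h1 := hzz ⟨x, hx⟩
      have h2 := hzz ⟨g * x * g⁻¹, hx'⟩
      simp only at h1 h2
      rw [h1, h2]
      have h3 : (sg G g w).1.coeff ⟨g * x * g⁻¹, hx'⟩ = w.1.coeff ⟨g * x * g⁻¹, hx'⟩ := by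
        rw [hw g hg]
      rw [← h3, coeff_sg, conj_symm_eq G (x := ⟨x, hx⟩) (y := ⟨g * x * g⁻¹, hx'⟩) rfl]
    · have hx' : g * x * g⁻¹ ∉ G := by
        intro h
        apply hx
        have := hG.conj_mem _ h g⁻¹
        simpa [mul_assoc] using this
      rw [hz0 _ hx', hz0 _ hx]
  have h1 := h zz hz1 hz0
  have h2 : (fun x : G => zz x) = fun x : G => w.1.coeff x := funext hzz
  rw [h2] at h1
  have h3 : toRH hB' w = toRH hB w := h1
  have h6 : toRH hB w = (B f - B' f) ^ Nat.card X := by
    change toRH hB (∏ g : X, (sg G (g : Γ) (ofC f hf) - ofS (B' f))) = _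
    rw [map_prod]
    rw [Finset.prod_congr rfl (g := fun _ => B f - B' f)]
    · rw [Finset.prod_const, Finset.card_univ, Nat.card_eq_fintype_card]
    · intro g _
      rw [map_sub, toRH_sg' G hB (hI g.2), toRH_ofS, toRH_ofC]
  have h5 : toRH hB' w = 0 := by
    change toRH hB' (∏ g : X, (sg G (g : Γ) (ofC f hf) - ofS (B' f))) = _
    rw [map_prod]
    apply Finset.prod_eq_zero (Finset.mem_univ (1 : X))
    have e1 : sg G ((1 : X) : Γ) (ofC f hf) = ofC f hf := by
      apply Subtype.ext
      ext y
      rw [coeff_sg]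
      congr 1
      rw [OneMemClass.coe_one, map_one]
      rfl
    rw [e1, map_sub, toRH_ofS, toRH_ofC, sub_self]
  rw [h5, h6] at h3
  have h4 := pow_eq_zero_iff Nat.card_pos.ne' |>.mp h3.symm
  exact (sub_eq_zero.mp h4).symm

end uniq

section ovr

variable {F : Type} [Field F] (red : integralClosure ℤ ℂ →+* F) {Y : Type} [Group Y] [Fintype Y]
  (M : Subgroup Y) [hM : M.Normal]

lemma om_over {chi : Y → ℂ} {theta : M → ℂ} (hc : IsIrrChar chi) (h : IsIrrChar theta)
    (h1 : mult M chi theta ≠ 0) {n : Y → ℂ} (hn : Cf n) (hs : ∀ y, y ∉ M → n y = 0) :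
    om chi n = om theta (fun x : M => n x) := by
  have e1 : ∑ g : Y, n g * chi g = ∑ x : M, n x * chi x := by
    rw [← Finset.sum_filter_add_sum_filter_not (s := Finset.univ) (p := fun y : Y => y ∈ M)]
    have : ∑ y ∈ Finset.univ.filter (fun y : Y => ¬ y ∈ M), n y * chi y = 0 := by
      apply Finset.sum_eq_zero
      intro y hy
      rw [hs y (Finset.mem_filter.mp hy).2, zero_mul]
    rw [this, add_zero]
    exact (Finset.sum_subtype _ (fun y => by simp) (fun y => n y * chi y))
  have e2 : ∀ x : M, chi x = ∑ t ∈ Orb M theta, (mult M chi theta : ℂ) * t x := by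
    intro x
    have h2 := congrFun (res_eq M hc) x
    rw [Finset.sum_apply] at h2
    have h3 : ∑ t ∈ Irr M, ((mult M chi t : ℂ) • t) x
        = ∑ t ∈ (Irr M).filter fun t => mult M chi t ≠ 0, ((mult M chi t : ℂ) • t) x := by
      rw [Finset.sum_filter_of_ne]
      intro t _ ht hz
      apply ht
      simp [hz]
    rw [h3, support_eq M hc h h1] at h2
    have h4 : res M chi x = chi x := rfl
    rw [← h4, h2]
    refine Finset.sum_congr rfl fun t ht => ?_
    obtain ⟨y, -, rfl⟩ := Finset.mem_image.mp ht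
    rw [Pi.smul_apply, smul_eq_mul, mult_cj M hc h]
  have e3 : ∀ t ∈ Orb M theta, ∑ x : M, n x * t x = ∑ x : M, n x * theta x := by
    intro t ht
    obtain ⟨y, -, rfl⟩ := Finset.mem_image.mp ht
    refine Fintype.sum_equiv (MulAut.conjNormal (H := M) y).toEquiv _ _ fun x => ?_
    simp only [cj, MulEquiv.toEquiv_eq_coe, EquivLike.coe_coe]
    rw [MulAut.conjNormal_apply, hn]
  obtain ⟨hd1, hd2⟩ := dg_spec hc
  obtain ⟨hd3, hd4⟩ := dg_spec h
  have h2 := deg_eq M hc h h1 hd1 hd3
  have h0 : ((Orb M theta).card : ℂ) * (mult M chi theta : ℂ) ≠ 0 := by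
    intro h3
    have h4 : (Orb M theta).card * mult M chi theta = 0 := by exact_mod_cast h3
    rw [h4, zero_mul] at h2
    omega
  have hth : theta 1 ≠ 0 := by
    rw [hd3]
    exact_mod_cast hd4.ne'
  unfold om
  rw [e1]
  have e4 : ∑ x : M, n x * chi x = ((Orb M theta).card : ℂ) * (mult M chi theta : ℂ) *
      ∑ x : M, n x * theta x := by
    have e5 : ∀ x : M, n x * chi x = ∑ t ∈ Orb M theta, (mult M chi theta : ℂ) * (n x * t x) := by
      intro x
      rw [e2, Finset.mul_sum]
      exact Finset.sum_congr rfl fun t _ => by ring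
    rw [Finset.sum_congr rfl fun x _ => e5 x, Finset.sum_comm]
    rw [Finset.sum_congr rfl fun t ht => by rw [← Finset.mul_sum, e3 t ht]]
    rw [Finset.sum_const, nsmul_eq_mul]
    ring
  rw [e4, hd1, h2, hd3]
  have hth' : (dg theta : ℂ) ≠ 0 := by exact_mod_cast hd4.ne'
  have hO : ((Orb M theta).card : ℂ) ≠ 0 := left_ne_zero_of_mul h0
  have hm' : (mult M chi theta : ℂ) ≠ 0 := right_ne_zero_of_mul h0
  push_cast
  field_simp

lemma cv_int {J : Type} [Group J] [Fintype J] {χ : J → ℂ} (h : IsIrrChar χ) {n : J → ℤ}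
    (hn : Cf n) : centralValue red χ (fun x => (n x : F)) = R red χ n := by
  rw [Pool.Agent.Y930.NV.centralValue_eq red h, Pool.Agent.Y930.NV.R_expand red h hn]

/-- **The central characters of a character and of its constituents.** -/
theorem cv_over {chi : Y → ℂ} {theta : M → ℂ} (hc : IsIrrChar chi) (h : IsIrrChar theta)
    (h1 : mult M chi theta ≠ 0) {f : Y → F} (hf : IsClassFun f) (hs : ∀ y, y ∉ M → f y = 0) :
    centralValue red chi f = centralValue red theta (fun x : M => f x) := by
  have hblk := Pool.Agent.Y930.NV.cvh F red M theta h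
  have hf' : Cf f := hf
  have hcl : ∀ C : ConjClasses Y, IsClassFun (fun x : M => ind F C (x : Y)) := by
    intro C g x
    exact Pool.Agent.Y930.NV.Cf_ind F C (g : Y) x
  have hsum : ∀ s : Finset (ConjClasses Y),
      IsClassFun (∑ C ∈ s, f C.out • (fun x : M => ind F C (x : Y))) ∧
      centralValue red theta (∑ C ∈ s, f C.out • (fun x : M => ind F C (x : Y))) =
        ∑ C ∈ s, f C.out * centralValue red theta (fun x : M => ind F C (x : Y)) := by
    intro s
    induction s using Finset.induction_on with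
    | empty =>
      rw [Finset.sum_empty, Finset.sum_empty]
      refine ⟨fun g x => rfl, ?_⟩
      have h3 := hblk.smul 0 (fun x : M => ind F (ConjClasses.mk 1) (x : Y)) (hcl _)
      rwa [zero_smul, zero_mul] at h3
    | insert C s hC ih =>
      have hsm : IsClassFun (f C.out • (fun x : M => ind F C (x : Y))) := fun g x => by
        simp only [Pi.smul_apply, hcl C g x]
      rw [Finset.sum_insert hC, Finset.sum_insert hC]
      refine ⟨fun g y => ?_, ?_⟩
      · rw [Pi.add_apply, Pi.add_apply, ih.1 g y, hsm g y]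
      · rw [hblk.add _ _ hsm ih.1, ih.2, hblk.smul _ _ (hcl C)]
  have hfe : (fun x : M => f x) = ∑ C : ConjClasses Y, f C.out • (fun x : M => ind F C (x : Y)) := by
    funext x
    rw [Finset.sum_apply]
    have := Pool.Agent.Y930.NV.Cf_expand hf' (x : Y)
    exact this
  rw [hfe, (hsum _).2, Pool.Agent.Y930.NV.centralValue_eq red hc]
  refine Finset.sum_congr rfl fun C _ => ?_
  by_cases hC : C.out ∈ M
  · congr 1
    have hn : Cf (fun x : M => ind ℤ C (x : Y)) := fun g x =>
      Pool.Agent.Y930.NV.Cf_ind ℤ C (g : Y) x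
    have e1 : (fun x : M => ind F C (x : Y)) = fun x : M => ((ind ℤ C (x : Y) : ℤ) : F) := by
      funext x
      unfold Pool.Agent.Y930.NV.ind
      split_ifs <;> simp
    rw [e1, cv_int red h hn]
    unfold R
    congr 1
    apply om_over M hc h h1
    · intro g x
      have := Pool.Agent.Y930.NV.Cf_ind ℤ C g x
      simp only [this]
    · intro y hy
      unfold Pool.Agent.Y930.NV.ind
      rw [if_neg]
      · simp
      · intro h2
        apply hy
        have h3 : ConjClasses.mk y = ConjClasses.mk C.out := by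
          rw [h2, Pool.Agent.Y930.NV.mk_out]
        rw [ConjClasses.mk_eq_mk_iff_isConj] at h3
        obtain ⟨c, hc⟩ := isConj_iff.mp h3.symm
        rw [← hc]
        exact hM.conj_mem _ hC c
  · rw [hs _ hC, zero_mul, zero_mul]

end ovr

end Pool.Agent.X209.DQ
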