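import Pool.Agent.X209.DQ.Cnt
import Pool.Agent.X209.NB.InvG
import Pool.Agent.X209.EQ.Grp
import Pool.Agent.X209.CC.Nor

/-!
# Chains of a normal subgroup of index prime to `p`
-/

open scoped Classical BigOperators
open Pool.Agent.Helper884.IC Pool.Agent.Y63.AWC Pool.Agent.Y63.KR Pool.Agent.X209.EQ
open Pool.Agent.X209.PJ Pool.Agent.X209.CC Pool.Agent.X209.NB

set_option linter.unusedSectionVars false
set_option linter.unusedVariables false

noncomputable section

namespace Pool.Agent.X209.DQ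

section fix

variable {E : Type} [Group E] [Finite E] {G : Subgroup E} [hG : G.Normal]

/-- the stabiliser in `E` of a chain of `G` and of a character -/
def FixSub (σ : Set (Subgroup G)) (χ : chainStabilizer σ → ℂ) : Subgroup E where
  carrier := {b | Fixes G σ χ b}
  one_mem' := by
    change Fixes G σ χ 1
    rw [fixes_iff, map_one]
    refine ⟨fun P _ => ?_, fun x y hxy => ?_⟩
    · exact Subgroup.map_id P
    · rw [Subtype.ext (hxy : (y : G) = x)]
  mul_mem' := by
    intro a b ha hb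
    change Fixes G σ χ (a * b)
    change Fixes G σ χ a at ha
    change Fixes G σ χ b at hb
    rw [fixes_iff] at ha hb ⊢
    rw [map_mul]
    refine ⟨fun P hP => ?_, fun x y hxy => ?_⟩
    · have h1 : (MulAut.conjNormal a * MulAut.conjNormal b : MulAut G).toMonoidHom =
          (MulAut.conjNormal a : MulAut G).toMonoidHom.comp
            (MulAut.conjNormal b : MulAut G).toMonoidHom := rfl
      rw [h1, ← Subgroup.map_map, hb.1 P hP, ha.1 P hP]
    · rw [MulAut.mul_apply] at hxy
      have h2 := mem_stab_aut hb.1 x.2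
      rw [← hb.2 x ⟨_, h2⟩ rfl]
      exact ha.2 ⟨_, h2⟩ y hxy
  inv_mem' := by
    intro a ha
    change Fixes G σ χ a⁻¹
    change Fixes G σ χ a at ha
    rw [fixes_iff] at ha ⊢
    rw [map_inv]
    refine ⟨fun P hP => ?_, fun x y hxy => ?_⟩
    · conv_lhs => rw [← ha.1 P hP]
      rw [Subgroup.map_map]
      have h1 : ((MulAut.conjNormal a : MulAut G)⁻¹).toMonoidHom.comp
          (MulAut.conjNormal a : MulAut G).toMonoidHom = MonoidHom.id G := by
        ext x
        simp
      rw [h1, Subgroup.map_id]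
    · symm
      apply ha.2 y x
      rw [hxy]
      simp

lemma mem_FixSub {σ : Set (Subgroup G)} {χ : chainStabilizer σ → ℂ} {b : E} :
    b ∈ FixSub σ χ ↔ Fixes G σ χ b := Iff.rfl

lemma stabIs_iff' (U : Subgroup E) (σ : Set (Subgroup G)) (χ : chainStabilizer σ → ℂ) :
    StabIs G U σ χ ↔ U = FixSub σ χ ⊔ G := by
  have key : ∀ u : E, u ∈ FixSub σ χ ⊔ G ↔ ∃ b : E, Fixes G σ χ b ∧ b⁻¹ * u ∈ G := by
    intro u
    rw [Subgroup.mem_sup_of_normal_right]
    constructor
    · rintro ⟨b, hb, n, hn, rfl⟩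
      exact ⟨b, hb, by rwa [inv_mul_cancel_left]⟩
    · rintro ⟨b, hb, hbu⟩
      exact ⟨b, hb, _, hbu, mul_inv_cancel_left b u⟩
  constructor
  · intro h
    ext u
    rw [key, h u]
  · rintro rfl u
    exact key u

/-- the elements of `G` -/
lemma inf_FixSub (σ : Set (Subgroup G)) {χ : chainStabilizer σ → ℂ} (hχ : IsIrrChar χ) :
    G ⊓ FixSub σ χ = (chainStabilizer σ).map G.subtype := by
  ext b
  constructor
  · rintro ⟨hb, hf⟩
    refine ⟨⟨b, hb⟩, ?_, rfl⟩
    rw [SetLike.mem_coe, mem_chainStabilizer]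
    intro P hP
    have h1 := hf.1 P hP
    apply Subgroup.map_injective G.subtype_injective
    rw [← h1]
    exact (conjSub_map' G.subtype ⟨b, hb⟩ P).symm
  · rintro ⟨a, ha, rfl⟩
    refine ⟨a.2, ?_⟩
    refine ⟨fun P hP => ?_, fun x y hxy => ?_⟩
    · have h1 := mem_chainStabilizer.mp ha P hP
      have h2 := conjSub_map' G.subtype a P
      rw [h1] at h2
      exact h2
    · have h1 : y = (⟨a, ha⟩ : chainStabilizer σ) * x * (⟨a, ha⟩ : chainStabilizer σ)⁻¹ :=
        Subtype.ext (Subtype.ext hxy)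
      have : Fintype (chainStabilizer σ) := Fintype.ofFinite _
      rw [h1, hχ.isClass]

/-- the orders -/
lemma card_FixSub {X : Subgroup E} (hX : G ≤ X) (σ : Set (Subgroup G))
    {χ : chainStabilizer σ → ℂ} (hχ : IsIrrChar χ) :
    Nat.card (FixSub σ χ ⊓ X : Subgroup E) * Nat.card G =
      Nat.card (chainStabilizer σ) * Nat.card ((FixSub σ χ ⊔ G) ⊓ X : Subgroup E) := by
  have h1 : (FixSub σ χ ⊔ G) ⊓ X = (FixSub σ χ ⊓ X) ⊔ G := by
    ext u
    rw [Subgroup.mem_inf, Subgroup.mem_sup_of_normal_right, Subgroup.mem_sup_of_normal_right]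
    constructor
    · rintro ⟨⟨b, hb, n, hn, rfl⟩, hu⟩
      refine ⟨b, ⟨hb, ?_⟩, n, hn, rfl⟩
      have := X.mul_mem hu (X.inv_mem (hX hn))
      rwa [mul_inv_cancel_right] at this
    · rintro ⟨b, ⟨hb, hbX⟩, n, hn, rfl⟩
      exact ⟨⟨b, hb, n, hn, rfl⟩, X.mul_mem hbX (hX hn)⟩
  have hcard : ∀ {K L : Subgroup E}, K ≤ L → Nat.card K * K.relIndex L = Nat.card L := by
    intro K L h
    have := Subgroup.relIndex_mul_relIndex ⊥ K L bot_le h
    rwa [Subgroup.relIndex_bot_left, Subgroup.relIndex_bot_left] at this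
  have h2 := hcard (le_sup_right : G ≤ (FixSub σ χ ⊓ X) ⊔ G)
  rw [Subgroup.relIndex_sup_right] at h2
  have h3 := hcard (inf_le_right : G ⊓ (FixSub σ χ ⊓ X) ≤ FixSub σ χ ⊓ X)
  rw [Subgroup.inf_relIndex_right] at h3
  have h4 : G ⊓ (FixSub σ χ ⊓ X) = G ⊓ FixSub σ χ := by
    rw [← inf_assoc]
    exact inf_eq_left.mpr (inf_le_left.trans hX)
  have h5 : Nat.card (G ⊓ (FixSub σ χ ⊓ X) : Subgroup E) = Nat.card (chainStabilizer σ) := by
    rw [h4, inf_FixSub σ hχ]
    exact Nat.card_congr (Subgroup.equivMapOfInjective _ _ G.subtype_injective).toEquiv.symm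
  rw [h5] at h3
  rw [h1, ← h3, ← h2]
  ring

end fix

section chn

variable {p : ℕ} [hp : Fact p.Prime] {E : Type} [Group E] [Finite E] {G : Subgroup E}
  [hG : G.Normal] (hidx : ¬ p ∣ G.index) {X : Subgroup E} (hX : G ≤ X)

include hidx in
/-- the `p`-elements are in `G` -/
lemma pelt_mem {x : E} {a : ℕ} (hx : x ^ p ^ a = 1) : x ∈ G := by
  rw [← QuotientGroup.eq_one_iff]
  have h1 : orderOf (x : E ⧸ G) ∣ p ^ a := by
    apply orderOf_dvd_of_pow_eq_one
    rw [← QuotientGroup.mk_pow, hx]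
    rfl
  have h2 : orderOf (x : E ⧸ G) ∣ G.index := by
    rw [Subgroup.index]
    exact orderOf_dvd_natCard _
  have h3 : Nat.Coprime (p ^ a) G.index :=
    Nat.Coprime.pow_left _ ((Nat.Prime.coprime_iff_not_dvd hp.out).mpr hidx)
  have h4 := Nat.eq_one_of_dvd_coprimes h3 h1 h2
  exact orderOf_eq_one_iff.mp h4

include hidx in
lemma pgroup_le {Q : Subgroup X} (hQ : IsPGroup p Q) : Q ≤ (Subgroup.inclusion hX).range := by
  intro q hq
  rw [iG_range]
  obtain ⟨a, ha⟩ := hQ ⟨q, hq⟩
  have h1 : (q : E) ^ p ^ a = 1 := congrArg (fun u : Q => ((u : X) : E)) ha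
  exact pelt_mem hidx h1

/-- the chain seen in `X` -/
def tr (σ : Set (Subgroup G)) : Set (Subgroup X) := Subgroup.map (Subgroup.inclusion hX) '' σ

lemma map_inj : Function.Injective (Subgroup.map (Subgroup.inclusion hX)) :=
  Subgroup.map_injective (Subgroup.inclusion_injective hX)

lemma isPGroup_map {P : Subgroup G} :
    IsPGroup p (P.map (Subgroup.inclusion hX)) ↔ IsPGroup p P := by
  constructor
  · intro h
    have := h.comap_of_injective (Subgroup.inclusion hX) (Subgroup.inclusion_injective hX)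
    rwa [Subgroup.comap_map_eq_self_of_injective (Subgroup.inclusion_injective hX)] at this
  · exact fun h => h.map _

lemma tr_chain {σ : Set (Subgroup G)} : IsChainAbove p (⊥ : Subgroup X) (tr hX σ) ↔
    IsChainAbove p (⊥ : Subgroup G) σ := by
  have hle : ∀ P Q : Subgroup G, P.map (Subgroup.inclusion hX) ≤ Q.map (Subgroup.inclusion hX) ↔
      P ≤ Q := fun P Q =>
    Subgroup.map_le_map_iff_of_injective (Subgroup.inclusion_injective hX)
  have hbot : ∀ P : Subgroup G, ⊥ < P.map (Subgroup.inclusion hX) ↔ ⊥ < P := by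
    intro P
    rw [bot_lt_iff_ne_bot, bot_lt_iff_ne_bot, Ne, Ne,
      Subgroup.map_eq_bot_iff_of_injective _ (Subgroup.inclusion_injective hX)]
  unfold IsChainAbove tr
  refine and_congr ?_ ?_
  · constructor
    · intro h P hP Q hQ hne
      rcases h ⟨P, hP, rfl⟩ ⟨Q, hQ, rfl⟩ (fun h => hne (map_inj hX h)) with h1 | h1
      · exact Or.inl ((hle _ _).mp h1)
      · exact Or.inr ((hle _ _).mp h1)
    · rintro h _ ⟨P, hP, rfl⟩ _ ⟨Q, hQ, rfl⟩ hne
      rcases h hP hQ (fun h => hne (by rw [h])) with h1 | h1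
      · exact Or.inl ((hle _ _).mpr h1)
      · exact Or.inr ((hle _ _).mpr h1)
  · constructor
    · intro h P hP
      have := h _ ⟨P, hP, rfl⟩
      rwa [isPGroup_map, hbot] at this
    · rintro h _ ⟨P, hP, rfl⟩
      have := h P hP
      rwa [← isPGroup_map hX, ← hbot] at this

include hidx in
/-- the chains of `X` are those of `G` -/
def chainEquiv : {σ : Set (Subgroup G) // IsChainAbove p (⊥ : Subgroup G) σ} ≃
    {τ : Set (Subgroup X) // IsChainAbove p (⊥ : Subgroup X) τ} where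
  toFun σ := ⟨tr hX σ.1, (tr_chain hX).mpr σ.2⟩
  invFun τ := ⟨Subgroup.comap (Subgroup.inclusion hX) '' τ.1, by
    have h1 : tr hX (Subgroup.comap (Subgroup.inclusion hX) '' τ.1) = τ.1 := by
      unfold tr
      rw [Set.image_image]
      have : ∀ Q ∈ τ.1, (Q.comap (Subgroup.inclusion hX)).map (Subgroup.inclusion hX) = Q :=
        fun Q hQ => Subgroup.map_comap_eq_self (pgroup_le hidx hX (τ.2.2 Q hQ).1)
      rw [Set.image_congr this, Set.image_id']
    rw [← tr_chain hX, h1]
    exact τ.2⟩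
  left_inv σ := by
    apply Subtype.ext
    change Subgroup.comap (Subgroup.inclusion hX) '' (Subgroup.map (Subgroup.inclusion hX) '' σ.1) = _
    rw [Set.image_image]
    have : ∀ P ∈ σ.1, (P.map (Subgroup.inclusion hX)).comap (Subgroup.inclusion hX) = P :=
      fun P _ => Subgroup.comap_map_eq_self_of_injective (Subgroup.inclusion_injective hX) P
    rw [Set.image_congr this, Set.image_id']
  right_inv τ := by
    apply Subtype.ext
    change Subgroup.map (Subgroup.inclusion hX) '' (Subgroup.comap (Subgroup.inclusion hX) '' τ.1) = _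
    rw [Set.image_image]
    have : ∀ Q ∈ τ.1, (Q.comap (Subgroup.inclusion hX)).map (Subgroup.inclusion hX) = Q :=
      fun Q hQ => Subgroup.map_comap_eq_self (pgroup_le hidx hX (τ.2.2 Q hQ).1)
    rw [Set.image_congr this, Set.image_id']

lemma tr_ncard (σ : Set (Subgroup G)) : (tr hX σ).ncard = σ.ncard :=
  Set.ncard_image_of_injective _ (map_inj hX)

/-- conjugation in `X` and in `E` -/
lemma conj_tr_iff (x : X) (P : Subgroup G) :
    conjSub x (P.map (Subgroup.inclusion hX)) = P.map (Subgroup.inclusion hX) ↔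
      conjSub (x : E) (P.map G.subtype) = P.map G.subtype := by
  have h1 : (P.map (Subgroup.inclusion hX)).map X.subtype = P.map G.subtype := by
    rw [Subgroup.map_map]
    rfl
  rw [← h1]
  have h2 := conjSub_map' X.subtype x (P.map (Subgroup.inclusion hX))
  constructor
  · intro h
    rw [h] at h2
    exact h2
  · intro h
    apply Subgroup.map_injective X.subtype_injective
    rw [← h2]
    exact h

lemma mem_tr_stab (σ : Set (Subgroup G)) (x : X) : x ∈ chainStabilizer (tr hX σ) ↔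
    ∀ P ∈ σ, conjSub (x : E) (P.map G.subtype) = P.map G.subtype := by
  rw [mem_chainStabilizer]
  constructor
  · intro h P hP
    exact (conj_tr_iff hX x P).mp (h _ ⟨P, hP, rfl⟩)
  · rintro h _ ⟨P, hP, rfl⟩
    exact (conj_tr_iff hX x P).mpr (h P hP)

lemma mem_stab_G (σ : Set (Subgroup G)) (x : G) : x ∈ chainStabilizer σ ↔
    ∀ P ∈ σ, conjSub (x : E) (P.map G.subtype) = P.map G.subtype := by
  rw [mem_chainStabilizer]
  refine forall_congr' fun P => imp_congr_right fun _ => ?_
  have h2 := conjSub_map' G.subtype x P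
  constructor
  · intro h
    rw [h] at h2
    exact h2
  · intro h
    apply Subgroup.map_injective G.subtype_injective
    rw [← h2]
    exact h

/-- the inclusion of the stabilisers -/
def iS (σ : Set (Subgroup G)) : chainStabilizer σ →* chainStabilizer (tr hX σ) :=
  ((Subgroup.inclusion hX).comp (Subgroup.subtype _)).codRestrict _ (fun x => by
    rw [mem_tr_stab]
    exact (mem_stab_G σ x).mp x.2)

lemma iS_val (σ : Set (Subgroup G)) (x : chainStabilizer σ) :
    (((iS hX σ x : chainStabilizer (tr hX σ)) : X) : E) = ((x : G) : E) := rfl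

lemma iS_inj (σ : Set (Subgroup G)) : Function.Injective (iS hX σ) := by
  intro x y h
  have h1 : (((iS hX σ x : chainStabilizer (tr hX σ)) : X) : E) = (iS hX σ y : X) := by rw [h]
  exact Subtype.ext (Subtype.ext h1)

lemma iS_range (σ : Set (Subgroup G)) (u : chainStabilizer (tr hX σ)) :
    u ∈ (iS hX σ).range ↔ ((u : X) : E) ∈ G := by
  constructor
  · rintro ⟨x, rfl⟩
    exact (x : G).2
  · intro h
    refine ⟨⟨⟨_, h⟩, (mem_stab_G σ _).mpr ((mem_tr_stab hX σ u).mp u.2)⟩, ?_⟩
    apply Subtype.ext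
    apply Subtype.ext
    rfl

instance iS_normal (σ : Set (Subgroup G)) : (iS hX σ).range.Normal := by
  constructor
  intro n hn g
  rw [iS_range] at hn ⊢
  exact hG.conj_mem _ hn _

/-- the quotient is cyclic -/
lemma iS_gen (hE : ∃ e₀ : E, G ⊔ Subgroup.zpowers e₀ = ⊤) (σ : Set (Subgroup G)) :
    ∃ g : chainStabilizer (tr hX σ), ∀ y, ∃ k : ℕ, y⁻¹ * g ^ k ∈ (iS hX σ).range := by
  obtain ⟨e₀, he₀⟩ := hE
  have hc : IsCyclic (E ⧸ G) := by
    refine ⟨QuotientGroup.mk e₀, fun y => ?_⟩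
    obtain ⟨x, rfl⟩ := QuotientGroup.mk_surjective y
    obtain ⟨k, hk⟩ := sup_gen (G := G) (e := e₀) (x := x) (by rw [he₀]; trivial)
    refine ⟨k, ?_⟩
    change (QuotientGroup.mk e₀ : E ⧸ G) ^ (k : ℤ) = QuotientGroup.mk x
    rw [zpow_natCast]
    exact (QuotientGroup.eq.mpr hk :
      (QuotientGroup.mk x : E ⧸ G) = QuotientGroup.mk (e₀ ^ k)).symm
  let φ : chainStabilizer (tr hX σ) →* E ⧸ G :=
    (QuotientGroup.mk' G).comp (X.subtype.comp (Subgroup.subtype _))
  have hU : IsCyclic φ.range := inferInstance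
  obtain ⟨⟨y, hy⟩, hgen⟩ := hU.exists_generator
  obtain ⟨u, rfl⟩ := hy
  refine ⟨u, fun x => ?_⟩
  have h1 := hgen ⟨_, ⟨x, rfl⟩⟩
  rw [← mem_powers_iff_mem_zpowers] at h1
  obtain ⟨k, hk⟩ := h1
  refine ⟨k, ?_⟩
  rw [iS_range]
  have h2 := congrArg Subtype.val hk
  exact QuotientGroup.eq.mp (h2.symm : (QuotientGroup.mk ((x : X) : E) : E ⧸ G) =
    QuotientGroup.mk (((u : X) : E) ^ k))

include hidx in
lemma iS_index (σ : Set (Subgroup G)) : ¬ p ∣ (iS hX σ).range.index := by
  intro h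
  have hc := Subgroup.index_eq_card (iS hX σ).range
  rw [hc] at h
  obtain ⟨c, hc⟩ := exists_prime_orderOf_dvd_card' p h
  obtain ⟨s, rfl⟩ := QuotientGroup.mk_surjective c
  have h4 : s ^ p ∈ (iS hX σ).range := by
    rw [← QuotientGroup.eq_one_iff, QuotientGroup.mk_pow, ← hc, pow_orderOf_eq_one]
  rw [iS_range] at h4
  have h5 : orderOf (((s : X) : E) : E ⧸ G) ∣ p := by
    apply orderOf_dvd_of_pow_eq_one
    rw [← QuotientGroup.mk_pow]
    exact (QuotientGroup.eq_one_iff _).mpr h4
  have h6 : orderOf (((s : X) : E) : E ⧸ G) ∣ G.index := by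
    rw [Subgroup.index]
    exact orderOf_dvd_natCard _
  have h7 := Nat.eq_one_of_dvd_coprimes ((Nat.Prime.coprime_iff_not_dvd hp.out).mpr hidx) h5 h6
  have h8 : ((s : X) : E) ∈ G := (QuotientGroup.eq_one_iff _).mp (orderOf_eq_one_iff.mp h7)
  have h9 : (s : chainStabilizer (tr hX σ) ⧸ (iS hX σ).range) = 1 :=
    (QuotientGroup.eq_one_iff s).mpr ((iS_range hX σ s).mpr h8)
  rw [h9, orderOf_one] at hc
  exact hp.out.one_lt.ne hc

/-- the stabiliser of a character in `X` -/
lemma card_fx (σ : Set (Subgroup G)) (χ : chainStabilizer σ → ℂ) :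
    Nat.card {y : chainStabilizer (tr hX σ) // Fx (iS hX σ) y χ} =
      Nat.card (FixSub σ χ ⊓ X : Subgroup E) := by
  have key : ∀ y : chainStabilizer (tr hX σ), Fx (iS hX σ) y χ ↔ Fixes G σ χ ((y : X) : E) := by
    intro y
    constructor
    · intro h
      refine ⟨(mem_tr_stab hX σ y).mp y.2, fun a b hab => ?_⟩
      apply h a b
      apply Subtype.ext
      apply Subtype.ext
      exact hab
    · intro h a b hab
      apply h.2 a b
      exact congrArg (fun u : chainStabilizer (tr hX σ) => ((u : X) : E)) hab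
  exact Nat.card_congr
    { toFun := fun y => ⟨((y.1 : X) : E), (key y.1).mp y.2, (y.1 : X).2⟩
      invFun := fun b => ⟨⟨⟨b.1, b.2.2⟩, (mem_tr_stab hX σ _).mpr b.2.1.1⟩, (key _).mpr b.2.1⟩
      left_inv := fun y => rfl
      right_inv := fun b => rfl }

end chn

end Pool.Agent.X209.DQ
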