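import Pool.Agent.X209.DQ.Blk
import Pool.Agent.X209.PJ.Defs

/-!
# Counting characters over the characters of a normal subgroup
-/

open scoped Classical BigOperators
open Pool.Agent.Helper884.IC Pool.Agent.Y63.AWC Pool.Agent.X209.DI Pool.Agent.X209.EQ
open Pool.Agent.Y63.NV (IsClassFun IsBlock InZ centralValue redC IsInvBlock)
open Pool.Agent.X209.PJ (HasDefect)
open Pool.Agent.Y63.KR (dg dg_spec)

set_option linter.unusedSectionVars false
set_option linter.unusedVariables false

noncomputable section

namespace Pool.Agent.X209.DQ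

attribute [-instance] MonoidHom.fintypeRange MonoidHom.decidableMemRange

variable {A Y : Type} [Group A] [Group Y] [Fintype A] [Fintype Y] (i : A →* Y)
  (hi : Function.Injective i) [hn : i.range.Normal]

/-- the character `χ` of `Y` lies over the character `θ` of `A` -/
def Ov (i : A →* Y) (hi : Function.Injective i) [i.range.Normal] (χ : Y → ℂ) (θ : A → ℂ) : Prop :=
  mult i.range χ (fun u => θ ((MonoidHom.ofInjective hi).symm u)) ≠ 0

lemma St_iff (θ : A → ℂ) (y : Y) :
    y ∈ St i.range (fun u => θ ((MonoidHom.ofInjective hi).symm u)) ↔ Fx i y θ := by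
  let E := MonoidHom.ofInjective hi
  have hE : ∀ a, ((E a : i.range) : Y) = i a := fun a => rfl
  rw [mem_St]
  constructor
  · intro h a b hab
    have h1 := congrFun h (E a)
    simp only [cj] at h1
    have h2 : MulAut.conjNormal y (E a) = E b := by
      apply Subtype.ext
      rw [MulAut.conjNormal_apply, hE, hE, hab]
    rw [h2, E.symm_apply_apply, E.symm_apply_apply] at h1
    exact h1
  · intro h
    funext u
    obtain ⟨a, rfl⟩ := E.surjective u
    obtain ⟨b, hb⟩ := E.surjective (MulAut.conjNormal y (E a))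
    have h1 := h a b (by
      rw [← hE, ← hE, hb, MulAut.conjNormal_apply])
    simp only [cj]
    change θ (E.symm (MulAut.conjNormal y (E a))) = θ (E.symm (E a))
    rw [← hb, E.symm_apply_apply, E.symm_apply_apply]
    exact h1

variable {g : Y} (hg : ∀ y : Y, ∃ k : ℕ, y⁻¹ * g ^ k ∈ i.range)

include hg in
/-- **The count.** -/
theorem hom_count (P : (Y → ℂ) → Prop) (Q : (A → ℂ) → Prop)
    (hPQ : ∀ χ θ, IsIrrChar χ → IsIrrChar θ → Ov i hi χ θ → (P χ ↔ Q θ)) :
    Nat.card A * (Nat.card Y * Nat.card {χ : Y → ℂ // IsIrrChar χ ∧ P χ}) =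
      ∑ θ ∈ (Irr A).filter Q, Nat.card {y : Y // Fx i y θ} ^ 2 := by
  let E := MonoidHom.ofInjective hi
  have h1 := double_count i.range P (fun t => Q (fun a => t (E a))) (by
    intro chi theta hc ht hm
    have h2 := hPQ chi (fun a => theta (E a)) hc (irr_comp E ht) (by
      unfold Ov
      have : (fun u => (fun a => theta (E a)) ((MonoidHom.ofInjective hi).symm u)) = theta := by
        funext u
        change theta (E (E.symm u)) = theta u
        rw [E.apply_symm_apply]
      rw [this]
      exact hm)
    exact h2)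
  have hnum : ((Irr Y).filter P).card = Nat.card {χ : Y → ℂ // IsIrrChar χ ∧ P χ} := by
    rw [← Fintype.card_coe, ← Nat.card_eq_fintype_card]
    exact Nat.card_congr (Equiv.subtypeEquivRight fun χ => by
      rw [Finset.mem_filter, mem_Irr])
  have hA : Nat.card A = Nat.card i.range := Nat.card_congr E.toEquiv
  rw [hnum] at h1
  rw [← h1, Finset.mul_sum]
  refine Finset.sum_bij' (fun t _ => fun a => t (E a)) (fun t _ => fun u => t (E.symm u))
    ?_ ?_ ?_ ?_ ?_
  · intro t ht
    rw [Finset.mem_filter, mem_Irr] at ht ⊢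
    exact ⟨irr_comp E ht.1, ht.2⟩
  · intro t ht
    rw [Finset.mem_filter, mem_Irr] at ht ⊢
    refine ⟨irr_comp E.symm ht.1, ?_⟩
    simp only [E.symm_apply_apply]
    exact ht.2
  · intro t _
    funext u
    simp
  · intro t _
    funext u
    simp
  · intro t ht
    rw [Finset.mem_filter, mem_Irr] at ht
    rw [hA, ← mul_assoc, nov_eq i.range hg ht.1, sq]
    have h2 : Nat.card (St i.range t) = Nat.card {y : Y // Fx i y (fun a => t (E a))} := by
      refine Nat.card_congr (Equiv.subtypeEquivRight fun y => ?_)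
      rw [← St_iff i hi]
      have : (fun u => (fun a => t (E a)) ((MonoidHom.ofInjective hi).symm u)) = t := by
        funext u
        change t (E (E.symm u)) = t u
        rw [E.apply_symm_apply]
      rw [this]
    rw [h2]

include hg in
/-- defects -/
theorem defect_over {p : ℕ} [hp : Fact p.Prime] (hidx : ¬ p ∣ i.range.index) {χ : Y → ℂ}
    {θ : A → ℂ} (hc : IsIrrChar χ) (h : IsIrrChar θ) (ho : Ov i hi χ θ) (d : ℕ) :
    HasDefect p d χ ↔ HasDefect p d θ := by
  let E := MonoidHom.ofInjective hi
  have ht : IsIrrChar (fun u => θ (E.symm u)) := irr_comp E.symm h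
  obtain ⟨hd1, hd2⟩ := dg_spec hc
  obtain ⟨hd3, hd4⟩ := dg_spec h
  have hd3' : (fun u => θ (E.symm u)) 1 = (dg θ : ℂ) := by
    simp only [map_one]
    exact hd3
  have h2 := deg_eq i.range hc ht ho hd1 hd3'
  have h3 : mult i.range χ (fun u => θ (E.symm u)) = 1 :=
    le_antisymm (mult_le_one i.range hg ht hc) (Nat.pos_of_ne_zero ho)
  rw [h3, mul_one] at h2
  have h4 : (Orb i.range (fun u => θ (E.symm u))).card ∣ i.range.index := orb_dvd i.range ht
  have h5 : ¬ p ∣ (Orb i.range (fun u => θ (E.symm u))).card := fun h6 => hidx (h6.trans h4)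
  have h6 : (Orb i.range (fun u => θ (E.symm u))).card ≠ 0 := fun h7 => h5 (by
    rw [h7]
    exact dvd_zero p)
  have h7 : (dg χ).factorization p = (dg θ).factorization p := by
    rw [h2, Nat.factorization_mul h6 hd4.ne', Finsupp.add_apply,
      Nat.factorization_eq_zero_of_not_dvd h5, zero_add]
  have hA : Nat.card A = Nat.card i.range := Nat.card_congr E.toEquiv
  have h8 : (Nat.card Y).factorization p = (Nat.card A).factorization p := by
    rw [← i.range.index_mul_card, ← hA, Nat.factorization_mul (index_pos i.range).ne'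
      Nat.card_pos.ne', Finsupp.add_apply, Nat.factorization_eq_zero_of_not_dvd hidx, zero_add]
  constructor
  · rintro ⟨m, hm, hmd⟩
    have h9 : m = dg χ := by
      have : (m : ℂ) = (dg χ : ℂ) := hm.symm.trans hd1
      exact_mod_cast this
    rw [h9, h7, h8] at hmd
    exact ⟨dg θ, hd3, hmd⟩
  · rintro ⟨m, hm, hmd⟩
    have h9 : m = dg θ := by
      have : (m : ℂ) = (dg θ : ℂ) := hm.symm.trans hd3
      exact_mod_cast this
    rw [h9, ← h7, ← h8] at hmd
    exact ⟨dg χ, hd1, hmd⟩

/-- central characters -/
theorem cv_over_hom {F : Type} [Field F] (red : integralClosure ℤ ℂ →+* F) {χ : Y → ℂ}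
    {θ : A → ℂ} (hc : IsIrrChar χ) (h : IsIrrChar θ) (ho : Ov i hi χ θ) {f : Y → F}
    (hf : IsClassFun f) (hs : ∀ y, y ∉ i.range → f y = 0) :
    centralValue red χ f = centralValue red θ (fun a => f (i a)) := by
  let E := MonoidHom.ofInjective hi
  have ht : IsIrrChar (fun u => θ (E.symm u)) := irr_comp E.symm h
  rw [cv_over red i.range hc ht ho hf hs]
  have hf' : IsClassFun (fun u : i.range => f u) := fun g x => hf g x
  have h1 := Pool.Agent.Y624.NV.centralValue_comp red E ht hf'
  have h2 : (fun x => (fun u => θ (E.symm u)) (E x)) = θ := funext fun x => by simp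
  rw [h2] at h1
  exact h1.symm

end Pool.Agent.X209.DQ
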