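import Pool.Agent.X209.DQ.Iso

/-!
# Dade's ordinary conjecture implies the invariant one for cyclic quotients of order prime to `p`
-/

open scoped Classical BigOperators
open Pool.Agent.Helper884.IC Pool.Agent.Y63.AWC Pool.Agent.Y63.KR Pool.Agent.X209.EQ
open Pool.Agent.X209.PJ Pool.Agent.X209.CC Pool.Agent.X209.NB
open Pool.Agent.Y63.NV (IsClassFun IsBlock InZ centralValue redC IsInvBlock classValue conv)

set_option linter.unusedSectionVars false
set_option linter.unusedVariables false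

noncomputable section

namespace Pool.Agent.X209.DQ

section defs

variable {F : Type} [Field F] (red : integralClosure ℤ ℂ →+* F) (p : ℕ)

/-- Dade's ordinary conjecture for the group `H` -/
def Ord (H : Type) [Group H] : Prop :=
  ∀ B : (H → F) → F, IsBlock B → NoDZ p red B → ∀ d : ℕ,
    altW p (IsRad p) (fun σ : Set (Subgroup H) => (kOrd p red B d (chainStabilizer σ) : ℤ)) = 0

/-- Dade's invariant conjecture for the normal subgroup `G` of `E` -/
def Invt {E : Type} [Group E] (G : Subgroup E) : Prop :=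
  ∀ B : (G → F) → F, IsBlock B → NoDZ p red B → ∀ (d : ℕ) (U : Subgroup E),
    altW p (IsRad p) (fun σ : Set (Subgroup G) => (kI red p B d U σ : ℤ)) = 0

end defs

section

variable {p : ℕ} [hp : Fact p.Prime] {F : Type} [Field F] [CharP F p]
  (red : integralClosure ℤ ℂ →+* F)

theorem inv_of_mid {E : Type} [Group E] [Finite E] {G : Subgroup E} [hG : G.Normal]
    (hidx : ¬ p ∣ G.index) (hE : ∃ e₀ : E, G ⊔ Subgroup.zpowers e₀ = ⊤)
    (h : ∀ X : Subgroup E, G ≤ X → Ord red p X) : Invt red p G := by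
  intro B hB hD d
  rw [← local_iff red hidx hE hB]
  intro X hX hXV
  obtain ⟨s, Bv, h1, h2⟩ := kX_sum (d := d) red hidx hX hE hB hXV hD
  unfold altW
  rw [altC_congr (g := fun τ : Set (Subgroup X) => ∑ v ∈ s,
    if IsRad p τ then (kOrd p red (Bv v) d (chainStabilizer τ) : ℤ) else 0) ?_, altC_sum]
  · refine Finset.sum_eq_zero fun v hv => ?_
    exact h X hX (Bv v) (h1 v hv).1 (h1 v hv).2 d
  · intro τ hτ
    simp only [h2 τ hτ]
    by_cases hr : IsRad p τ
    · simp only [if_pos hr]
      push_cast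
      rfl
    · simp only [if_neg hr, Finset.sum_const_zero]

theorem inv_of_ord (h : ∀ (H : Type) [Group H] [Finite H], IsCore p (⊥ : Subgroup H) →
    Ord red p H) {E : Type} [Group E] [Finite E] {G : Subgroup E} [hG : G.Normal]
    (hcore : IsCore p (⊥ : Subgroup G)) (hidx : ¬ p ∣ G.index)
    (hE : ∃ e₀ : E, G ⊔ Subgroup.zpowers e₀ = ⊤) : Invt red p G :=
  inv_of_mid red hidx hE fun X hX => h X (core_inc hidx hcore hX)

theorem ord_of_inv (h : ∀ (E : Type) [Group E] [Finite E] (G : Subgroup E) [G.Normal],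
    IsCore p (⊥ : Subgroup G) → ¬ p ∣ G.index → (∃ e₀ : E, G ⊔ Subgroup.zpowers e₀ = ⊤) →
      Invt red p G) {H : Type} [Group H] [Finite H] (hcore : IsCore p (⊥ : Subgroup H)) :
    Ord red p H := by
  intro B hB hD d
  have hc : IsCore p (⊥ : Subgroup (⊤ : Subgroup H)) := by
    refine ⟨IsPGroup.of_bot, inferInstance, fun N hN hpN => ?_⟩
    have h1 : N.map (⊤ : Subgroup H).subtype ≤ ⊥ := by
      refine hcore.max _ (hN.map _ ?_) (hpN.map _)
      rw [← MonoidHom.range_eq_top, Subgroup.range_subtype]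
    rw [le_bot_iff, Subgroup.map_eq_bot_iff_of_injective _ (Subgroup.subtype_injective _)] at h1
    exact h1.le
  have h1 := h H ⊤ hc (by rw [Subgroup.index_top]; exact hp.out.one_lt.ne' ∘ Nat.dvd_one.mp)
    ⟨1, by simp⟩ (isoB Subgroup.topEquiv B) (isoB_block _ hB) (isoB_noDZ red _ hD) d ⊤
  rw [← alt_iso red (Subgroup.topEquiv : (⊤ : Subgroup H) ≃* H) d, ← h1]
  congr 1
  funext σ
  congr 1
  unfold kOrd kI
  refine Nat.card_congr (Equiv.subtypeEquivRight fun χ => ?_)
  have h2 : StabIs (⊤ : Subgroup H) ⊤ σ χ := by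
    rw [stabIs_iff', sup_top_eq]
  tauto

/-- **The global theorem.** -/
theorem ord_iff_inv : (∀ (H : Type) [Group H] [Finite H], IsCore p (⊥ : Subgroup H) →
    Ord red p H) ↔
    ∀ (E : Type) [Group E] [Finite E] (G : Subgroup E) [G.Normal],
      IsCore p (⊥ : Subgroup G) → ¬ p ∣ G.index → (∃ e₀ : E, G ⊔ Subgroup.zpowers e₀ = ⊤) →
        Invt red p G :=
  ⟨fun h E _ _ G _ hcore hidx hE => inv_of_ord red h hcore hidx hE,
    fun h H _ _ hcore => ord_of_inv red h hcore⟩

end

end Pool.Agent.X209.DQ
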