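import Pool.Agent.X209.DQ.Loc
import Pool.Agent.X209.AM.Frob

/-!
# The global theorem
-/

open scoped Classical BigOperators
open Pool.Agent.Helper884.IC Pool.Agent.Y63.AWC Pool.Agent.Y63.KR Pool.Agent.X209.EQ
open Pool.Agent.X209.PJ Pool.Agent.X209.CC Pool.Agent.X209.NB
open Pool.Agent.Y63.NV (IsClassFun IsBlock InZ centralValue redC IsInvBlock classValue)

set_option linter.unusedSectionVars false
set_option linter.unusedVariables false

noncomputable section

namespace Pool.Agent.X209.DQ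

attribute [-instance] MonoidHom.fintypeRange MonoidHom.decidableMemRange

/-- the block `B` contains no irreducible character of defect zero, that is, its defect groups are
nontrivial -/
def NoDZ (p : ℕ) {F : Type} [Field F] (red : integralClosure ℤ ℂ →+* F) {H : Type} [Group H]
    (B : (H → F) → F) : Prop :=
  ∀ χ : H → ℂ, IsIrrChar χ → (∀ f : H → F, IsClassFun f → centralValue red χ f = B f) →
    ¬ HasDefect p 0 χ

section

variable {p : ℕ} [hp : Fact p.Prime] {F : Type} [Field F] [CharP F p]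
  (red : integralClosure ℤ ℂ →+* F) {E : Type} [Group E] [Finite E] {G : Subgroup E}
  [hG : G.Normal] {B : (G → F) → F} {d : ℕ}

lemma gen_inc {X : Subgroup E} (hX : G ≤ X) (hE : ∃ e₀ : E, G ⊔ Subgroup.zpowers e₀ = ⊤) :
    ∃ g : X, ∀ y, ∃ k : ℕ, y⁻¹ * g ^ k ∈ (Subgroup.inclusion hX).range := by
  obtain ⟨e₀, he₀⟩ := hE
  have hc : IsCyclic (E ⧸ G) := by
    refine ⟨QuotientGroup.mk e₀, fun y => ?_⟩
    obtain ⟨x, rfl⟩ := QuotientGroup.mk_surjective y
    obtain ⟨k, hk⟩ := sup_gen (G := G) (e := e₀) (x := x) (by rw [he₀]; trivial)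
    refine ⟨k, ?_⟩
    change (QuotientGroup.mk e₀ : E ⧸ G) ^ (k : ℤ) = QuotientGroup.mk x
    rw [zpow_natCast]
    exact (QuotientGroup.eq.mpr hk :
      (QuotientGroup.mk x : E ⧸ G) = QuotientGroup.mk (e₀ ^ k)).symm
  let φ : X →* E ⧸ G := (QuotientGroup.mk' G).comp X.subtype
  have hU : IsCyclic φ.range := inferInstance
  obtain ⟨⟨y, hy⟩, hgen⟩ := hU.exists_generator
  obtain ⟨u, rfl⟩ := hy
  refine ⟨u, fun x => ?_⟩
  have h1 := hgen ⟨_, ⟨x, rfl⟩⟩
  rw [← mem_powers_iff_mem_zpowers] at h1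
  obtain ⟨k, hk⟩ := h1
  refine ⟨k, ?_⟩
  rw [iG_range]
  have h2 := congrArg Subtype.val hk
  exact QuotientGroup.eq.mp (h2.symm : (QuotientGroup.mk (x : E) : E ⧸ G) =
    QuotientGroup.mk ((u : E) ^ k))

lemma index_inc (hidx : ¬ p ∣ G.index) {X : Subgroup E} (hX : G ≤ X) :
    ¬ p ∣ (Subgroup.inclusion hX).range.index := by
  rw [Subgroup.inclusion_range]
  intro h
  apply hidx
  have h1 : (G.subgroupOf X).index ∣ G.index := Subgroup.relIndex_dvd_index_of_normal G X
  exact h.trans h1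

/-- the core of `X` -/
lemma core_inc (hidx : ¬ p ∣ G.index) (hcore : IsCore p (⊥ : Subgroup G)) {X : Subgroup E}
    (hX : G ≤ X) : IsCore p (⊥ : Subgroup X) := by
  refine ⟨IsPGroup.of_bot, inferInstance, fun N hN hpN => ?_⟩
  have h1 := pgroup_le hidx hX hpN
  have h2 : N.comap (Subgroup.inclusion hX) ≤ ⊥ :=
    hcore.max _ (hN.comap _) (hpN.comap_of_injective _ (Subgroup.inclusion_injective hX))
  rw [← Subgroup.map_comap_eq_self h1, le_bot_iff.mp h2, Subgroup.map_bot]

/-- a block of `X` which covers a block without characters of defect zero has no characters of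
defect zero -/
lemma noDZ_cov (hidx : ¬ p ∣ G.index) {X : Subgroup E} (hX : G ≤ X)
    (hE : ∃ e₀ : E, G ⊔ Subgroup.zpowers e₀ = ⊤) (hB : IsBlock B) (hI : X ≤ StB G B)
    (hD : NoDZ p red B) {B' : (X → F) → F}
    (hcov : ∀ z : E → F, (∀ g ∈ X, ∀ x, z (g * x * g⁻¹) = z x) → (∀ x, x ∉ G → z x = 0) →
      B' (fun x : X => z x) = B (fun x : G => z x)) : NoDZ p red B' := by
  intro χ hχ hχB hdef
  have : Fintype X := Fintype.ofFinite _
  have : Fintype G := Fintype.ofFinite _
  obtain ⟨g, hg⟩ := gen_inc hX hE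
  obtain ⟨θ', hθ', hm⟩ := mult_exists (Subgroup.inclusion hX).range hχ
  let e := MonoidHom.ofInjective (Subgroup.inclusion_injective hX)
  have hθ : IsIrrChar (fun a : G => θ' (e a)) := irr_comp e hθ'
  have ho : Ov (Subgroup.inclusion hX) (Subgroup.inclusion_injective hX) χ
      (fun a : G => θ' (e a)) := by
    unfold Ov
    have h1 : (fun u => (fun a => θ' (e a))
        ((MonoidHom.ofInjective (Subgroup.inclusion_injective hX)).symm u)) = θ' := by
      funext u
      change θ' (e (e.symm u)) = θ' u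
      rw [e.apply_symm_apply]
    rw [h1]
    exact hm
  have h2 : HasDefect p 0 (fun a : G => θ' (e a)) :=
    (defect_over (Subgroup.inclusion hX) (Subgroup.inclusion_injective hX) hg (index_inc hidx hX)
      hχ hθ ho 0).mp hdef
  refine hD _ hθ (fun f hf => ?_) h2
  refine uniq_inv G hB (Pool.Agent.Y930.NV.cvh F red G _ hθ) hI ?_ hf
  intro z hz hs
  rw [← hcov z hz hs, ← hχB (fun x : X => z x) (fun g x => hz g g.2 x)]
  exact (cv_over_hom (Subgroup.inclusion hX) (Subgroup.inclusion_injective hX) red hχ hθ ho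
    (f := fun x : X => z x) (fun g x => hz g g.2 x)
    (fun y hy => hs _ (fun h3 => hy ((iG_range hX y).mpr h3)))).symm

/-- the class values of the functional of a character -/
def cval {H : Type} [Group H] {K : Subgroup H} (χ : K → ℂ) (x : H) : F :=
  centralValue red χ (fun y => if IsConj x (y : H) then (1 : F) else 0)

/-- the functional of a character -/
def fun1 {H : Type} [Group H] {K : Subgroup H} (χ : K → ℂ) : (H → F) → F :=
  fun f => centralValue red χ (fun y => f y)

lemma induces_iff {H : Type} [Group H] [Finite H] {σ : Set (Subgroup H)}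
    (hσ : IsChainAbove p (⊥ : Subgroup H) σ) {χ : chainStabilizer σ → ℂ} (h : IsIrrChar χ)
    {B : (H → F) → F} (hB : IsBlock B) :
    Induces red B χ ↔ ∀ x, cval red χ x = classValue B x := by
  constructor
  · intro h1 x
    exact h1 _ (Pool.Agent.X209.AM.cls_eq x)
  · intro h1 f hf
    have h2 : IsBlock (fun1 red χ) :=
      induces_block (p := p) red hσ.1 (fun P hP => (hσ.2 P hP).1) h (fun _ _ => rfl)
    exact Pool.Agent.X209.AM.block_ext h2 hB h1 hf

/-- **The decomposition into blocks of `X`.** -/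
theorem kX_sum (hidx : ¬ p ∣ G.index) {X : Subgroup E} (hX : G ≤ X)
    (hE : ∃ e₀ : E, G ⊔ Subgroup.zpowers e₀ = ⊤) (hB : IsBlock B) (hI : X ≤ StB G B)
    (hD : NoDZ p red B) : ∃ (s : Finset (X → F)) (Bv : (X → F) → (X → F) → F),
      (∀ v ∈ s, IsBlock (Bv v) ∧ NoDZ p red (Bv v)) ∧
      ∀ τ : Set (Subgroup X), IsChainAbove p (⊥ : Subgroup X) τ →
        kX red p B d τ = ∑ v ∈ s, kOrd p red (Bv v) d (chainStabilizer τ) := by
  have hfin : {v : X → F | ∃ τ : {τ : Set (Subgroup X) // IsChainAbove p (⊥ : Subgroup X) τ},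
      ∃ χ : chainStabilizer τ.1 → ℂ, IsIrrChar χ ∧ Cov red B χ ∧ v = cval red χ}.Finite := by
    have h1 : ∀ τ : {τ : Set (Subgroup X) // IsChainAbove p (⊥ : Subgroup X) τ},
        {v : X → F | ∃ χ : chainStabilizer τ.1 → ℂ, IsIrrChar χ ∧ Cov red B χ ∧
          v = cval red χ}.Finite := by
      intro τ
      have h2 : {χ : chainStabilizer τ.1 → ℂ | IsIrrChar χ}.Finite := by
        have : Fintype (chainStabilizer τ.1) := Fintype.ofFinite _
        exact irr_finite
      refine (h2.image (fun χ => cval red χ)).subset ?_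
      rintro v ⟨χ, hχ, _, rfl⟩
      exact ⟨χ, hχ, rfl⟩
    refine (Set.finite_iUnion h1).subset ?_
    rintro v ⟨τ, hv⟩
    exact Set.mem_iUnion.mpr ⟨τ, hv⟩
  have hex : ∀ v : X → F, ∃ Bv : (X → F) → F, v ∈ hfin.toFinset →
      (IsBlock Bv ∧ (∀ x, classValue Bv x = v x) ∧
        ∀ z : E → F, (∀ g ∈ X, ∀ x, z (g * x * g⁻¹) = z x) → (∀ x, x ∉ G → z x = 0) →
          Bv (fun x : X => z x) = B (fun x : G => z x)) := by
    intro v
    by_cases hv : v ∈ hfin.toFinset
    · rw [Set.Finite.mem_toFinset] at hv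
      obtain ⟨τ, χ, hχ, hcov, rfl⟩ := hv
      refine ⟨fun1 red χ, fun _ => ⟨?_, fun x => rfl, hcov⟩⟩
      exact induces_block (p := p) red τ.2.1 (fun P hP => (τ.2.2 P hP).1) hχ (fun _ _ => rfl)
    · exact ⟨fun _ => 0, fun h => absurd h hv⟩
  choose Bv hBv using hex
  refine ⟨hfin.toFinset, Bv, ?_, ?_⟩
  · intro v hv
    obtain ⟨h1, h2, h3⟩ := hBv v hv
    exact ⟨h1, noDZ_cov red hidx hX hE hB hI hD h3⟩
  · intro τ hτ
    have : Fintype (chainStabilizer τ) := Fintype.ofFinite _
    have key : ∀ v ∈ hfin.toFinset, ∀ χ : chainStabilizer τ → ℂ, IsIrrChar χ →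
        (Induces red (Bv v) χ ↔ (Cov red B χ ∧ cval red χ = v)) := by
      intro v hv χ hχ
      obtain ⟨h1, h2, h3⟩ := hBv v hv
      constructor
      · intro h4
        refine ⟨fun z hz hs => ?_, ?_⟩
        · rw [← h3 z hz hs]
          exact h4 (fun x : X => z x) (fun g x => hz g g.2 x)
        · funext x
          rw [← h2 x]
          exact (induces_iff red hτ hχ h1).mp h4 x
      · rintro ⟨_, h4⟩
        rw [induces_iff red hτ hχ h1]
        intro x
        rw [h2, h4]
    have hk : kX red p B d τ = ((Irr (chainStabilizer τ)).filter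
        (fun χ => HasDefect p d χ ∧ Cov red B χ)).card := by
      unfold kX
      rw [← Fintype.card_coe, ← Nat.card_eq_fintype_card]
      exact Nat.card_congr (Equiv.subtypeEquivRight fun χ => by
        rw [Finset.mem_filter, mem_Irr])
    rw [hk, Finset.card_eq_sum_card_fiberwise (f := fun χ => cval red χ) (t := hfin.toFinset)]
    · refine Finset.sum_congr rfl fun v hv => ?_
      unfold kOrd
      rw [← Fintype.card_coe, ← Nat.card_eq_fintype_card]
      refine Nat.card_congr (Equiv.subtypeEquivRight fun χ => ?_)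
      rw [Finset.mem_filter, Finset.mem_filter, mem_Irr]
      constructor
      · rintro ⟨⟨h1, h2, h3⟩, h4⟩
        exact ⟨h1, h2, (key v hv χ h1).mpr ⟨h3, h4⟩⟩
      · rintro ⟨h1, h2, h3⟩
        have h4 := (key v hv χ h1).mp h3
        exact ⟨⟨h1, h2, h4.1⟩, h4.2⟩
    · intro χ hχ
      have hχ' := Finset.mem_filter.mp (Finset.mem_coe.mp hχ)
      rw [Finset.mem_coe, Set.Finite.mem_toFinset]
      exact ⟨⟨τ, hτ⟩, χ, mem_Irr.mp hχ'.1, hχ'.2.2, rfl⟩

end

end Pool.Agent.X209.DQ
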