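import Pool.Agent.X209.DQ.Chn

/-!
# The formula
-/

open scoped Classical BigOperators
open Pool.Agent.Helper884.IC Pool.Agent.Y63.AWC Pool.Agent.Y63.KR Pool.Agent.X209.EQ
open Pool.Agent.X209.PJ Pool.Agent.X209.CC Pool.Agent.X209.NB
open Pool.Agent.Y63.NV (IsClassFun IsBlock InZ centralValue redC IsInvBlock)

set_option linter.unusedSectionVars false
set_option linter.unusedVariables false

noncomputable section

namespace Pool.Agent.X209.DQ

section defs

variable {F : Type} [Field F] (red : integralClosure ℤ ℂ →+* F) {E : Type} [Group E]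

/-- The block of `X` induced by the block of the character `χ` of `H ≤ X` covers the block `B` of
`G`: the central characters agree at the `X`-invariant elements supported on `G`. -/
def Cov {G : Subgroup E} (B : (G → F) → F) {X : Subgroup E} {H : Subgroup X} (χ : H → ℂ) : Prop :=
  ∀ z : E → F, (∀ g ∈ X, ∀ x, z (g * x * g⁻¹) = z x) → (∀ x, x ∉ G → z x = 0) →
    centralValue red χ (fun y => z ((y : X) : E)) = B (fun x : G => z x)

/-- the number of the irreducible characters of `N_X(τ)` of defect `d` in blocks which induce blocks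
covering `B` -/
def kX (p : ℕ) {G : Subgroup E} (B : (G → F) → F) (d : ℕ) {X : Subgroup E}
    (τ : Set (Subgroup X)) : ℕ :=
  Nat.card {χ : chainStabilizer τ → ℂ // IsIrrChar χ ∧ HasDefect p d χ ∧ Cov red B χ}

/-- the number of the irreducible characters `ψ` of `N_G(σ)` of defect `d` in blocks which induce
`B`, with `N_E(σ, ψ) G = U` -/
def kI (p : ℕ) {G : Subgroup E} (B : (G → F) → F) (d : ℕ) (U : Subgroup E)
    (σ : Set (Subgroup G)) : ℕ :=
  Nat.card {ψ : chainStabilizer σ → ℂ // IsIrrChar ψ ∧ HasDefect p d ψ ∧ Induces red B ψ ∧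
    StabIs G U σ ψ}

/-- the alternating sum over the classes of the chains with the property `W` -/
def altW (p : ℕ) {G : Type} [Group G] (W : Set (Subgroup G) → Prop)
    (f : Set (Subgroup G) → ℤ) : ℤ :=
  altC p (⊥ : Subgroup G) (fun σ => if W σ then f σ else 0)

end defs

section conj

variable {F : Type} [Field F] (red : integralClosure ℤ ℂ →+* F) {H : Type} [Group H] [Finite H]

lemma cv_cj (g : H) (σ : Set (Subgroup H)) {χ : chainStabilizer (conjSub g '' σ) → ℂ}
    (h : IsIrrChar χ) {f : H → F} (hf : IsClassFun f) :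
    centralValue red (fun x => χ (cjE g σ x)) (fun x => f x) = centralValue red χ (fun x => f x) := by
  have hf' : IsClassFun (fun x : chainStabilizer (conjSub g '' σ) => f x) := fun a x => hf a x
  have h1 := Pool.Agent.Y624.NV.centralValue_comp red (cjE g σ) h hf'
  rw [← h1]
  congr 1
  funext x
  rw [cjE_val, hf]

lemma defect_cj {p d : ℕ} (g : H) (σ : Set (Subgroup H)) {χ : chainStabilizer (conjSub g '' σ) → ℂ}
    (h : HasDefect p d χ) : HasDefect p d (fun x => χ (cjE g σ x)) := by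
  obtain ⟨m, hm, hmd⟩ := h
  refine ⟨m, ?_, ?_⟩
  · simp only [map_one]
    exact hm
  · rw [hmd, Nat.card_congr (cjE g σ).toEquiv]

end conj

section main

variable {p : ℕ} [hp : Fact p.Prime] {F : Type} [Field F] [CharP F p]
  (red : integralClosure ℤ ℂ →+* F) {E : Type} [Group E] [Finite E] {G : Subgroup E}
  [hG : G.Normal] {B : (G → F) → F} {d : ℕ}

lemma kI_conj (U : Subgroup E) (g : G) (σ : Set (Subgroup G))
    (hσ : IsChainAbove p (⊥ : Subgroup G) σ) :
    kI red p B d U (conjSub g '' σ) = kI red p B d U σ := by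
  have h1 : Natural p (⊥ : Subgroup G) (fun σ ψ => HasDefect p d ψ ∧ Induces red B ψ ∧
      StabIs G U σ ψ) := by
    intro g σ hσ χ hχ h2
    refine ⟨defect_cj g σ h2.1, ?_, ?_⟩
    · intro f hf
      rw [cv_cj red g σ hχ hf]
      exact h2.2.1 f hf
    · rw [stabIs_iff]
      exact famU_natural (p := p) (A := (⊥ : Subgroup G)) _ _ g σ hσ χ hχ
        ((stabIs_iff U _ χ).mp h2.2.2)
  exact kAll_conj h1 g σ hσ

lemma kX_conj {X : Subgroup E} (g : X) (σ : Set (Subgroup X))
    (hσ : IsChainAbove p (⊥ : Subgroup X) σ) :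
    kX red p B d (conjSub g '' σ) = kX red p B d σ := by
  have h1 : Natural p (⊥ : Subgroup X) (fun σ ψ => HasDefect p d ψ ∧ Cov red B ψ) := by
    intro g σ hσ χ hχ h2
    refine ⟨defect_cj g σ h2.1, ?_⟩
    intro z hz hs
    have hf : IsClassFun (fun x : X => z x) := fun a x => hz a a.2 x
    have h3 := cv_cj red g σ hχ hf
    rw [h3]
    exact h2.2 z hz hs
  exact kAll_conj h1 g σ hσ

variable (hidx : ¬ p ∣ G.index) {X : Subgroup E} (hX : G ≤ X)
  (hE : ∃ e₀ : E, G ⊔ Subgroup.zpowers e₀ = ⊤) (hB : IsBlock B) (hI : X ≤ StB G B)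

include hB hI hX in
/-- covering and inducing -/
theorem cov_iff {σ : Set (Subgroup G)} (hσ : IsChainAbove p (⊥ : Subgroup G) σ)
    [Fintype (chainStabilizer (tr hX σ))] {χ : chainStabilizer (tr hX σ) → ℂ} {θ : chainStabilizer σ → ℂ} (hc : IsIrrChar χ)
    (h : IsIrrChar θ) (ho : Ov (iS hX σ) (iS_inj hX σ) χ θ) :
    Cov red B χ ↔ Induces red B θ := by
  have : Fintype (chainStabilizer σ) := Fintype.ofFinite _
  have key : ∀ z : E → F, (∀ g ∈ X, ∀ x, z (g * x * g⁻¹) = z x) → (∀ x, x ∉ G → z x = 0) →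
      centralValue red χ (fun y => z ((y : X) : E)) =
        centralValue red θ (fun x => z ((x : G) : E)) := by
    intro z hz hs
    have h1 := cv_over_hom (iS hX σ) (iS_inj hX σ) red hc h ho
      (f := fun y : chainStabilizer (tr hX σ) => z ((y : X) : E))
      (fun a x => hz _ (a : X).2 _) (fun y hy => hs _ (fun h2 => hy ((iS_range hX σ y).mpr h2)))
    rw [h1]
    rfl
  constructor
  · intro h1 f hf
    have hB' : IsBlock (fun f : G → F => centralValue red θ (fun x => f x)) :=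
      induces_block (p := p) red hσ.1 (fun P hP => (hσ.2 P hP).1) h (fun _ _ => rfl)
    refine uniq_inv G hB hB' hI ?_ hf
    intro z hz hs
    rw [← h1 z hz hs]
    exact (key z hz hs).symm
  · intro h1 z hz hs
    rw [key z hz hs]
    exact h1 (fun x : G => z x) (fun g x => hz g (hX g.2) x)

include hidx hE hB hI in
/-- the count for one chain -/
theorem one_chain {σ : Set (Subgroup G)} (hσ : IsChainAbove p (⊥ : Subgroup G) σ) :
    Nat.card G ^ 2 * (Nat.card (chainStabilizer (tr hX σ)) * kX red p B d (tr hX σ)) =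
      Nat.card (chainStabilizer σ) *
        ∑ᶠ U : Subgroup E, Nat.card (U ⊓ X : Subgroup E) ^ 2 * kI red p B d U σ := by
  have : Fintype (chainStabilizer (tr hX σ)) := Fintype.ofFinite _
  have : Fintype (chainStabilizer σ) := Fintype.ofFinite _
  have : Fintype (Subgroup E) := Fintype.ofFinite _
  obtain ⟨g, hg⟩ := iS_gen hX hE σ
  obtain ⟨Q, hQ⟩ : ∃ Q : (chainStabilizer σ → ℂ) → Prop, ∀ θ, Q θ ↔
    (HasDefect p d θ ∧ Induces red B θ) := ⟨fun θ => HasDefect p d θ ∧ Induces red B θ,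
      fun _ => Iff.rfl⟩
  have h1 := hom_count (iS hX σ) (iS_inj hX σ) hg
    (fun χ => HasDefect p d χ ∧ Cov red B χ) Q (by
      intro χ θ hc h ho
      rw [hQ]
      exact and_congr (defect_over (iS hX σ) (iS_inj hX σ) hg (iS_index hidx hX σ) hc h ho d)
        (cov_iff red hX hB hI hσ hc h ho))
  have h2 : ∀ θ ∈ (Irr (chainStabilizer σ)).filter Q,
      Nat.card G ^ 2 * Nat.card {y : chainStabilizer (tr hX σ) // Fx (iS hX σ) y θ} ^ 2 =
        Nat.card (chainStabilizer σ) ^ 2 *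
          Nat.card ((FixSub σ θ ⊔ G) ⊓ X : Subgroup E) ^ 2 := by
    intro θ hθ
    rw [Finset.mem_filter, mem_Irr] at hθ
    rw [card_fx hX σ θ, ← mul_pow, mul_comm (Nat.card G), card_FixSub hX σ hθ.1, mul_pow]
  have h3 : Nat.card G ^ 2 * (Nat.card (chainStabilizer σ) *
      (Nat.card (chainStabilizer (tr hX σ)) * kX red p B d (tr hX σ))) =
      Nat.card (chainStabilizer σ) ^ 2 * ∑ θ ∈ (Irr (chainStabilizer σ)).filter Q,
          Nat.card ((FixSub σ θ ⊔ G) ⊓ X : Subgroup E) ^ 2 := by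
    unfold kX
    rw [h1, Finset.mul_sum, Finset.sum_congr rfl h2, ← Finset.mul_sum]
  have h4 : ∑ θ ∈ (Irr (chainStabilizer σ)).filter Q,
          Nat.card ((FixSub σ θ ⊔ G) ⊓ X : Subgroup E) ^ 2 =
      ∑ᶠ U : Subgroup E, Nat.card (U ⊓ X : Subgroup E) ^ 2 * kI red p B d U σ := by
    rw [finsum_eq_sum_of_fintype, ← Finset.sum_fiberwise_of_maps_to (t := Finset.univ)
      (g := fun θ => FixSub σ θ ⊔ G) (fun θ _ => Finset.mem_univ _)]
    refine Finset.sum_congr rfl fun U _ => ?_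
    rw [Finset.sum_congr rfl (g := fun _ => Nat.card (U ⊓ X : Subgroup E) ^ 2)]
    · rw [Finset.sum_const, smul_eq_mul, mul_comm]
      congr 1
      unfold kI
      rw [← Fintype.card_coe, ← Nat.card_eq_fintype_card]
      refine Nat.card_congr (Equiv.subtypeEquivRight fun χ => ?_)
      rw [Finset.mem_filter, Finset.mem_filter, mem_Irr, stabIs_iff', eq_comm (a := U), hQ]
      tauto
    · intro θ hθ
      rw [(Finset.mem_filter.mp hθ).2]
  rw [h4] at h3
  apply Nat.eq_of_mul_eq_mul_left (Nat.card_pos : 0 < Nat.card (chainStabilizer σ))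
  rw [← mul_assoc (Nat.card (chainStabilizer σ)) (Nat.card (chainStabilizer σ)), ← sq, ← h3]
  ring

include hidx hE hB hI in
/-- **The formula.** -/
theorem formula (WG : Set (Subgroup G) → Prop) (WX : Set (Subgroup X) → Prop)
    (hWG : ∀ (g : G) σ, IsChainAbove p (⊥ : Subgroup G) σ → (WG (conjSub g '' σ) ↔ WG σ))
    (hWX : ∀ (g : X) σ, IsChainAbove p (⊥ : Subgroup X) σ → (WX (conjSub g '' σ) ↔ WX σ))
    (hW : ∀ σ, IsChainAbove p (⊥ : Subgroup G) σ → (WX (tr hX σ) ↔ WG σ)) :
    (Nat.card G : ℤ) * ((Nat.card X : ℤ) * altW p WX (fun τ => (kX red p B d τ : ℤ))) =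
      ∑ᶠ U : Subgroup E, (Nat.card (U ⊓ X : Subgroup E) : ℤ) ^ 2 *
        altW p WG (fun σ => (kI red p B d U σ : ℤ)) := by
  have : Fintype (Subgroup E) := Fintype.ofFinite _
  have : Fintype {σ : Set (Subgroup G) // IsChainAbove p (⊥ : Subgroup G) σ} := Fintype.ofFinite _
  have : Fintype {σ : Set (Subgroup X) // IsChainAbove p (⊥ : Subgroup X) σ} := Fintype.ofFinite _
  have h1 := card_mul_altC (p := p) (A := (⊥ : Subgroup X))
    (fun τ => if WX τ then (kX red p B d τ : ℤ) else 0) (by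
      intro g τ hτ
      simp only [hWX g τ hτ, kX_conj red g τ hτ])
  have h2 : ∀ U : Subgroup E, (Nat.card G : ℤ) * altW p WG (fun σ => (kI red p B d U σ : ℤ)) = _ :=
    fun U => card_mul_altC (p := p) (A := (⊥ : Subgroup G))
      (fun σ => if WG σ then (kI red p B d U σ : ℤ) else 0) (by
        intro g σ hσ
        simp only [hWG g σ hσ, kI_conj red U g σ hσ])
  have h3 : ∑ τ : {σ : Set (Subgroup X) // IsChainAbove p (⊥ : Subgroup X) σ},
      (-1 : ℤ) ^ τ.1.ncard * ((Nat.card (chainStabilizer τ.1) : ℤ) *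
        (if WX τ.1 then (kX red p B d τ.1 : ℤ) else 0)) =
      ∑ σ : {σ : Set (Subgroup G) // IsChainAbove p (⊥ : Subgroup G) σ},
      (-1 : ℤ) ^ σ.1.ncard * ((Nat.card (chainStabilizer (tr hX σ.1)) : ℤ) *
        (if WG σ.1 then (kX red p B d (tr hX σ.1) : ℤ) else 0)) := by
    refine (Fintype.sum_equiv (chainEquiv hidx hX) _ _ fun σ => ?_).symm
    change _ = (-1 : ℤ) ^ (tr hX σ.1).ncard * ((Nat.card (chainStabilizer (tr hX σ.1)) : ℤ) *
        (if WX (tr hX σ.1) then (kX red p B d (tr hX σ.1) : ℤ) else 0))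
    rw [tr_ncard]
    simp only [hW σ.1 σ.2]
  have hG0 : (Nat.card G : ℤ) ≠ 0 := by exact_mod_cast Nat.card_pos.ne'
  apply mul_left_cancel₀ hG0
  have h4 : (Nat.card G : ℤ) * ((Nat.card G : ℤ) * ((Nat.card X : ℤ) *
      altW p WX (fun τ => (kX red p B d τ : ℤ)))) =
      (Nat.card G : ℤ) ^ 2 * ((Nat.card X : ℤ) * altW p WX (fun τ => (kX red p B d τ : ℤ))) := by
    ring
  rw [h4]
  unfold altW at h2 ⊢
  rw [h1, h3, Finset.mul_sum, finsum_eq_sum_of_fintype, Finset.mul_sum]
  have h5 : ∀ U : Subgroup E, (Nat.card G : ℤ) * ((Nat.card (U ⊓ X : Subgroup E) : ℤ) ^ 2 *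
      altC p (⊥ : Subgroup G) (fun σ => if WG σ then (kI red p B d U σ : ℤ) else 0)) =
      ∑ σ : {σ : Set (Subgroup G) // IsChainAbove p (⊥ : Subgroup G) σ},
        (Nat.card (U ⊓ X : Subgroup E) : ℤ) ^ 2 * ((-1 : ℤ) ^ σ.1.ncard *
          ((Nat.card (chainStabilizer σ.1) : ℤ) *
            (if WG σ.1 then (kI red p B d U σ.1 : ℤ) else 0))) := by
    intro U
    rw [← Finset.mul_sum, ← h2 U]
    ring
  rw [Finset.sum_congr rfl fun U _ => h5 U, Finset.sum_comm]
  refine Finset.sum_congr rfl fun σ _ => ?_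
  have h6 := one_chain red (d := d) hidx hX hE hB hI σ.2
  rw [finsum_eq_sum_of_fintype] at h6
  have h7 : (Nat.card G : ℤ) ^ 2 * ((Nat.card (chainStabilizer (tr hX σ.1)) : ℤ) *
      (kX red p B d (tr hX σ.1) : ℤ)) = (Nat.card (chainStabilizer σ.1) : ℤ) *
        ∑ U : Subgroup E, (Nat.card (U ⊓ X : Subgroup E) : ℤ) ^ 2 * (kI red p B d U σ.1 : ℤ) := by
    exact_mod_cast h6
  by_cases hw : WG σ.1
  · simp only [if_pos hw]
    have h8 : (Nat.card G : ℤ) ^ 2 * ((-1 : ℤ) ^ σ.1.ncard *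
        ((Nat.card (chainStabilizer (tr hX σ.1)) : ℤ) * (kX red p B d (tr hX σ.1) : ℤ))) =
        (-1 : ℤ) ^ σ.1.ncard * ((Nat.card G : ℤ) ^ 2 *
          ((Nat.card (chainStabilizer (tr hX σ.1)) : ℤ) * (kX red p B d (tr hX σ.1) : ℤ))) := by
      ring
    rw [h8, h7, Finset.mul_sum, Finset.mul_sum]
    refine Finset.sum_congr rfl fun U _ => ?_
    ring
  · simp only [if_neg hw, mul_zero]
    exact Finset.sum_const_zero.symm

end main

end Pool.Agent.X209.DQ
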